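import Mathlib

/-! One-dimensional cellular automata on finite words simulate Turing machines. -/

namespace Pool.Agent.Undec

open Turing

variable {C : Type*}

/-- one step of the automaton, with the last two cells in memory; `b` is the blank -/
def scan (f : C → C → C → C) (b : C) : C → C → List C → List C
  | l1, l2, [] => [f l1 l2 b, f l2 b b]
  | l1, l2, x :: W => f l1 l2 x :: scan f b l2 x W

/-- global step on finite words: the word grows by one cell on each side -/
def caStep (f : C → C → C → C) (b : C) (W : List C) : List C := scan f b b b W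

/-- the word `W` represents the configuration `c`, starting at position `lo` -/
def Rep (b : C) (W : List C) (c : ℤ → C) (lo : ℤ) : Prop :=
  (∀ i : ℕ, c (lo + i) = W.getD i b) ∧ (∀ i : ℕ, c (lo - 1 - i) = b)

/-- global map on configurations -/
def glob (f : C → C → C → C) (c : ℤ → C) : ℤ → C := fun p => f (c (p - 1)) (c p) (c (p + 1))

/-- cell with memory -/
def memD (b l1 l2 : C) (W : List C) : ℕ → C
  | 0 => l1
  | 1 => l2
  | i + 2 => W.getD i b

lemma scan_getD (f : C → C → C → C) {b : C} (hb : f b b b = b) : ∀ (W : List C) (l1 l2 : C)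
    (i : ℕ), (scan f b l1 l2 W).getD i b =
      f (memD b l1 l2 W i) (memD b l1 l2 W (i + 1)) (memD b l1 l2 W (i + 2)) := by
  intro W
  induction W with
  | nil =>
    intro l1 l2 i
    match i with
    | 0 => simp [scan, memD]
    | 1 => simp [scan, memD]
    | i + 2 => simp [scan, memD, hb]
  | cons x W ih =>
    intro l1 l2 i
    match i with
    | 0 => simp [scan, memD]
    | 1 =>
      have := ih l2 x 0
      simpa [scan, memD] using this
    | i + 2 =>
      have := ih l2 x (i + 1)
      simp only [scan, List.getD_cons_succ]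
      rw [this]
      simp only [memD, List.getD_cons_succ]
      cases i <;> simp [memD]

lemma Rep.step (f : C → C → C → C) {b : C} (hb : f b b b = b) {W : List C} {c : ℤ → C} {lo : ℤ}
    (h : Rep b W c lo) : Rep b (caStep f b W) (glob f c) (lo - 1) := by
  obtain ⟨h1, h2⟩ := h
  have hm : ∀ i : ℕ, c (lo - 2 + i) = memD b b b W i := by
    intro i
    match i with
    | 0 =>
      have := h2 1
      simp only [memD]
      rw [← this]
      congr 1
      push_cast
      ring
    | 1 =>
      have := h2 0
      simp only [memD]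
      rw [← this]
      congr 1
      push_cast
      ring
    | i + 2 =>
      have := h1 i
      simp only [memD]
      rw [← this]
      congr 1
      push_cast
      ring
  constructor
  · intro i
    rw [caStep, scan_getD f hb, ← hm, ← hm, ← hm]
    simp only [glob]
    have e1 : lo - 1 + (i : ℤ) - 1 = lo - 2 + (i : ℤ) := by ring
    have e2 : lo - 1 + (i : ℤ) = lo - 2 + ((i + 1 : ℕ) : ℤ) := by push_cast; ring
    have e3 : lo - 1 + (i : ℤ) + 1 = lo - 2 + ((i + 2 : ℕ) : ℤ) := by push_cast; ring
    rw [e1, e3, e2]
  · intro i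
    simp only [glob]
    have e1 : c (lo - 1 - 1 - (i : ℤ) - 1) = b := by
      have := h2 (i + 2)
      rw [← this]; congr 1; push_cast; ring
    have e2 : c (lo - 1 - 1 - (i : ℤ)) = b := by
      have := h2 (i + 1)
      rw [← this]; congr 1; push_cast; ring
    have e3 : c (lo - 1 - 1 - (i : ℤ) + 1) = b := by
      have := h2 i
      rw [← this]; congr 1; ring
    rw [e1, e2, e3, hb]

lemma Rep.iterate (f : C → C → C → C) {b : C} (hb : f b b b = b) {W : List C} {c : ℤ → C}
    {lo : ℤ} (h : Rep b W c lo) (j : ℕ) :
    Rep b ((caStep f b)^[j] W) ((glob f)^[j] c) (lo - j) := by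
  induction j with
  | zero => simpa using h
  | succ j ih =>
    rw [Function.iterate_succ_apply', Function.iterate_succ_apply']
    have := ih.step f hb
    have e : lo - ((j + 1 : ℕ) : ℤ) = lo - (j : ℤ) - 1 := by push_cast; ring
    rw [e]
    exact this

lemma Rep.exists_iff {b : C} {W : List C} {c : ℤ → C} {lo : ℤ} (h : Rep b W c lo)
    {H : C → Prop} (hb : ¬ H b) : (∃ y ∈ W, H y) ↔ ∃ p, H (c p) := by
  obtain ⟨h1, h2⟩ := h
  constructor
  · rintro ⟨y, hy, hH⟩
    obtain ⟨i, hi, rfl⟩ := List.getElem_of_mem hy
    refine ⟨lo + i, ?_⟩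
    rw [h1, List.getD_eq_getElem _ _ hi]
    exact hH
  · rintro ⟨p, hp⟩
    by_cases hlo : lo ≤ p
    · obtain ⟨i, hi⟩ := Int.eq_ofNat_of_zero_le (sub_nonneg.2 hlo)
      have hpe : p = lo + i := by omega
      rw [hpe, h1] at hp
      by_cases hlt : i < W.length
      · rw [List.getD_eq_getElem _ _ hlt] at hp
        exact ⟨_, List.getElem_mem hlt, hp⟩
      · rw [List.getD_eq_default _ _ (by omega)] at hp
        exact absurd hp hb
    · push Not at hlo
      obtain ⟨i, hi⟩ := Int.eq_ofNat_of_zero_le (show 0 ≤ lo - 1 - p by omega)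
      have hpe : p = lo - 1 - i := by omega
      rw [hpe, h2] at hp
      exact absurd hp hb

section TM

variable {Γ Λ : Type*} [Inhabited Γ] [Inhabited Λ]

open Classical in
/-- new symbol of a cell -/
noncomputable def symU (M : TM0.Machine Γ Λ) (x : Γ × Option Λ) : Γ :=
  match x.2 with
  | none => x.1
  | some q =>
    match M q x.1 with
    | some (_, TM0.Stmt.write b) => b
    | _ => x.1

/-- head arriving from the right neighbour -/
def fromR (M : TM0.Machine Γ Λ) (x : Γ × Option Λ) : Option Λ :=
  match x.2 with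
  | none => none
  | some q =>
    match M q x.1 with
    | some (q', TM0.Stmt.move Dir.left) => some q'
    | _ => none

/-- head arriving from the left neighbour -/
def fromL (M : TM0.Machine Γ Λ) (x : Γ × Option Λ) : Option Λ :=
  match x.2 with
  | none => none
  | some q =>
    match M q x.1 with
    | some (q', TM0.Stmt.move Dir.right) => some q'
    | _ => none

/-- head staying in the cell -/
def stay (M : TM0.Machine Γ Λ) (x : Γ × Option Λ) : Option Λ :=
  match x.2 with
  | none => none
  | some q =>
    match M q x.1 with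
    | some (q', TM0.Stmt.write _) => some q'
    | none => some q
    | _ => none

/-- the local rule -/
noncomputable def rule (M : TM0.Machine Γ Λ) (l c r : Γ × Option Λ) : Γ × Option Λ :=
  (symU M c, (stay M c).orElse fun _ => (fromR M r).orElse fun _ => fromL M l)

/-- the configuration of the automaton -/
noncomputable def cfgOf (q : Λ) (T : Tape Γ) (h : ℤ) : ℤ → Γ × Option Λ :=
  fun p => (T.nth (p - h), if p = h then some q else none)

/-- blank cell -/
def blk : Γ × Option Λ := (default, none)

lemma symU_none (M : TM0.Machine Γ Λ) (a : Γ) : symU M (a, none) = a := rfl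

lemma stay_none (M : TM0.Machine Γ Λ) (a : Γ) : stay M (a, none) = none := rfl

lemma fromR_none (M : TM0.Machine Γ Λ) (a : Γ) : fromR M (a, none) = none := rfl

lemma fromL_none (M : TM0.Machine Γ Λ) (a : Γ) : fromL M (a, none) = none := rfl

lemma write_vals {M : TM0.Machine Γ Λ} {a b : Γ} {q q1 : Λ}
    (hM : M q a = some (q1, TM0.Stmt.write b)) : symU M (a, some q) = b ∧
    stay M (a, some q) = some q1 ∧ fromR M (a, some q) = none ∧ fromL M (a, some q) = none := by
  simp [symU, stay, fromR, fromL, hM]

lemma left_vals {M : TM0.Machine Γ Λ} {a : Γ} {q q1 : Λ}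
    (hM : M q a = some (q1, TM0.Stmt.move Dir.left)) : symU M (a, some q) = a ∧
    stay M (a, some q) = none ∧ fromR M (a, some q) = some q1 ∧ fromL M (a, some q) = none := by
  simp [symU, stay, fromR, fromL, hM]

lemma right_vals {M : TM0.Machine Γ Λ} {a : Γ} {q q1 : Λ}
    (hM : M q a = some (q1, TM0.Stmt.move Dir.right)) : symU M (a, some q) = a ∧
    stay M (a, some q) = none ∧ fromR M (a, some q) = none ∧ fromL M (a, some q) = some q1 := by
  simp [symU, stay, fromR, fromL, hM]

lemma cfgOf_at (q : Λ) (T : Tape Γ) (h : ℤ) : cfgOf q T h h = (T.nth 0, some q) := by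
  simp [cfgOf]

lemma cfgOf_off (q : Λ) (T : Tape Γ) {h p : ℤ} (hp : p ≠ h) :
    cfgOf q T h p = (T.nth (p - h), none) := by
  simp [cfgOf, hp]

lemma rule_blk (M : TM0.Machine Γ Λ) : rule M blk blk blk = blk := by
  simp [rule, blk, symU, stay, fromR, fromL]

lemma glob_step (M : TM0.Machine Γ Λ) {q : Λ} {T : Tape Γ} {h : ℤ} {q' : Λ} {T' : Tape Γ}
    (hs : TM0.step M ⟨q, T⟩ = some ⟨q', T'⟩) :
    ∃ h', glob (rule M) (cfgOf q T h) = cfgOf q' T' h' := by
  simp only [TM0.step, Option.map_eq_some_iff] at hs
  obtain ⟨⟨q1, s⟩, hM, he⟩ := hs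
  rw [← Tape.nth_zero] at hM
  cases s with
  | write b =>
    simp only [TM0.Cfg.mk.injEq] at he
    obtain ⟨rfl, rfl⟩ := he
    obtain ⟨v1, v2, v3, v4⟩ := write_vals hM
    refine ⟨h, ?_⟩
    funext p
    simp only [glob, rule]
    by_cases hp : p = h
    · subst hp
      rw [cfgOf_at, v1, v2, cfgOf_at, Tape.write_nth]
      simp
    · have h1 : p - h ≠ 0 := by omega
      rw [cfgOf_off q T hp, cfgOf_off q1 _ hp, symU_none, stay_none, Tape.write_nth, if_neg h1]
      have hr : fromR M (cfgOf q T h (p + 1)) = none := by
        by_cases hpr : p + 1 = h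
        · rw [hpr, cfgOf_at, v3]
        · rw [cfgOf_off q T hpr, fromR_none]
      have hl : fromL M (cfgOf q T h (p - 1)) = none := by
        by_cases hpr : p - 1 = h
        · rw [hpr, cfgOf_at, v4]
        · rw [cfgOf_off q T hpr, fromL_none]
      rw [hr, hl]
      rfl
  | move d =>
    simp only [TM0.Cfg.mk.injEq] at he
    obtain ⟨rfl, rfl⟩ := he
    cases d with
    | left =>
      obtain ⟨v1, v2, v3, v4⟩ := left_vals hM
      refine ⟨h - 1, ?_⟩
      funext p
      simp only [glob, rule]
      have hl : fromL M (cfgOf q T h (p - 1)) = none := by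
        by_cases hpr : p - 1 = h
        · rw [hpr, cfgOf_at, v4]
        · rw [cfgOf_off q T hpr, fromL_none]
      have hsy : symU M (cfgOf q T h p) = T.nth (p - h) := by
        by_cases hp : p = h
        · rw [hp, cfgOf_at, v1, sub_self]
        · rw [cfgOf_off q T hp, symU_none]
      have hst : stay M (cfgOf q T h p) = none := by
        by_cases hp : p = h
        · rw [hp, cfgOf_at, v2]
        · rw [cfgOf_off q T hp, stay_none]
      rw [hl, hsy, hst]
      by_cases hp : p = h - 1
      · have hr : fromR M (cfgOf q T h (p + 1)) = some q1 := by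
          have : p + 1 = h := by omega
          rw [this, cfgOf_at, v3]
        rw [hr, hp, cfgOf_at, Tape.move_left_nth]
        have e : h - 1 - h = 0 - 1 := by ring
        rw [e]
        rfl
      · have hr : fromR M (cfgOf q T h (p + 1)) = none := by
          have : p + 1 ≠ h := by omega
          rw [cfgOf_off q T this, fromR_none]
        rw [hr, cfgOf_off q1 _ hp, Tape.move_left_nth]
        have e : p - (h - 1) - 1 = p - h := by ring
        rw [e]
        rfl
    | right =>
      obtain ⟨v1, v2, v3, v4⟩ := right_vals hM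
      refine ⟨h + 1, ?_⟩
      funext p
      simp only [glob, rule]
      have hr : fromR M (cfgOf q T h (p + 1)) = none := by
        by_cases hpr : p + 1 = h
        · rw [hpr, cfgOf_at, v3]
        · rw [cfgOf_off q T hpr, fromR_none]
      have hsy : symU M (cfgOf q T h p) = T.nth (p - h) := by
        by_cases hp : p = h
        · rw [hp, cfgOf_at, v1, sub_self]
        · rw [cfgOf_off q T hp, symU_none]
      have hst : stay M (cfgOf q T h p) = none := by
        by_cases hp : p = h
        · rw [hp, cfgOf_at, v2]
        · rw [cfgOf_off q T hp, stay_none]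
      rw [hr, hsy, hst]
      by_cases hp : p = h + 1
      · have hl : fromL M (cfgOf q T h (p - 1)) = some q1 := by
          have : p - 1 = h := by omega
          rw [this, cfgOf_at, v4]
        rw [hl, hp, cfgOf_at, Tape.move_right_nth]
        have e : h + 1 - h = 0 + 1 := by ring
        rw [e]
        rfl
      · have hl : fromL M (cfgOf q T h (p - 1)) = none := by
          have : p - 1 ≠ h := by omega
          rw [cfgOf_off q T this, fromL_none]
        rw [hl, cfgOf_off q1 _ hp, Tape.move_right_nth]
        have e : p - (h + 1) + 1 = p - h := by ring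
        rw [e]
        rfl

/-- halting cells -/
def HaltC (M : TM0.Machine Γ Λ) (x : Γ × Option Λ) : Prop := ∃ q, x.2 = some q ∧ M q x.1 = none

lemma haltC_iff (M : TM0.Machine Γ Λ) {q : Λ} {T : Tape Γ} {h : ℤ} :
    (∃ p, HaltC M (cfgOf q T h p)) ↔ TM0.step M ⟨q, T⟩ = none := by
  constructor
  · rintro ⟨p, q', h1, h2⟩
    by_cases hp : p = h
    · subst hp
      rw [cfgOf_at] at h1 h2
      simp only [Option.some.injEq] at h1
      subst h1
      rw [Tape.nth_zero] at h2
      simp [TM0.step, h2]
    · rw [cfgOf_off q T hp] at h1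
      simp at h1
  · intro hs
    refine ⟨h, q, ?_, ?_⟩
    · rw [cfgOf_at]
    · rw [cfgOf_at, Tape.nth_zero]
      simpa [TM0.step] using hs

/-- halting of the machine is visible in the automaton -/
theorem halts_iff (M : TM0.Machine Γ Λ) (q : Λ) (T : Tape Γ) (h : ℤ) :
    (∃ b, StateTransition.Reaches (TM0.step M) ⟨q, T⟩ b ∧ TM0.step M b = none) ↔
      ∃ j p, HaltC M ((glob (rule M))^[j] (cfgOf q T h) p) := by
  constructor
  · rintro ⟨b, h1, h2⟩
    have key : ∀ a : TM0.Cfg Γ Λ, StateTransition.Reaches (TM0.step M) a b → ∀ h : ℤ,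
        ∃ j p, HaltC M ((glob (rule M))^[j] (cfgOf a.q a.Tape h) p) := by
      intro a ha
      induction ha using Relation.ReflTransGen.head_induction_on with
      | refl =>
        intro h
        obtain ⟨p, hp⟩ := (haltC_iff M (q := b.q) (T := b.Tape) (h := h)).2 h2
        exact ⟨0, p, hp⟩
      | head hac _ ih =>
        intro h
        obtain ⟨h', hg⟩ := glob_step M (h := h) (hac)
        obtain ⟨j, p, hp⟩ := ih h'
        refine ⟨j + 1, p, ?_⟩
        rw [Function.iterate_succ_apply, hg]
        exact hp
    exact key ⟨q, T⟩ h1 h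
  · rintro ⟨j, p, hp⟩
    induction j generalizing q T h with
    | zero =>
      exact ⟨⟨q, T⟩, Relation.ReflTransGen.refl, (haltC_iff M (h := h)).1 ⟨p, hp⟩⟩
    | succ j ih =>
      by_cases hs : TM0.step M ⟨q, T⟩ = none
      · exact ⟨⟨q, T⟩, Relation.ReflTransGen.refl, hs⟩
      · obtain ⟨⟨q', T'⟩, hs'⟩ := Option.ne_none_iff_exists'.1 hs
        obtain ⟨h', hg⟩ := glob_step M (h := h) hs'
        rw [Function.iterate_succ_apply, hg] at hp
        obtain ⟨b, h1, h2⟩ := ih q' T' h' hp
        exact ⟨b, Relation.ReflTransGen.head hs' h1, h2⟩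

end TM

end Pool.Agent.Undec
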