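import Pool.Agent.Undec.CA
import Pool.Agent.OneRel.Universal

/-! A cellular automaton on finite words with an undecidable reachability problem. -/

namespace Pool.Agent.Undec

open Turing StateTransition

lemma HaltC.rule {Γ Λ : Type*} [Inhabited Γ] [Inhabited Λ] {M : TM0.Machine Γ Λ}
    {x : Γ × Option Λ} (h : HaltC M x) (l r : Γ × Option Λ) : HaltC M (rule M l x r) := by
  obtain ⟨q, h1, h2⟩ := h
  obtain ⟨a, o⟩ := x
  simp only at h1 h2
  subst h1
  refine ⟨q, ?_, ?_⟩
  · simp [Undec.rule, stay, h2]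
  · simp [Undec.rule, symU, h2]

lemma tape_pos {Γ : Type*} [Inhabited Γ] (l : List Γ) (i : ℕ) :
    (Tape.mk₁ l).nth (i : ℤ) = l.getI i := by
  rw [Tape.mk₁, Tape.mk₂, Tape.mk'_nth_nat, ListBlank.nth_mk]

lemma tape_neg {Γ : Type*} [Inhabited Γ] (l : List Γ) (i : ℕ) :
    (Tape.mk₁ l).nth (-1 - (i : ℤ)) = default := by
  have e : (-1 - (i : ℤ)) = Int.negSucc i := by omega
  rw [e]
  change (ListBlank.mk ([] : List Γ)).nth i = default
  rw [ListBlank.nth_mk]
  cases i <;> rfl

theorem ca_undec : ∃ (C : Type) (_ : Fintype C) (f : C → C → C → C) (b : C) (H : C → Prop)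
    (c0 : C) (g : Bool → C), f b b b = b ∧
    ¬ ComputablePred (fun n : ℕ =>
      ∃ j, ∃ y ∈ (caStep f b)^[j + 1] (c0 :: (Nat.bits n).reverse.map g), H y) := by
  classical
  obtain ⟨Γ, Λ, i1, i2, i3, i4, i5, M, g0, gb, hM⟩ := OneRel.exists_universal
  refine ⟨Γ × Option Λ, inferInstance, rule M, blk, HaltC M, (g0, some default),
    fun x => (gb x, none), rule_blk M, ?_⟩
  intro hc
  apply hM
  refine hc.of_eq ?_
  intro n
  set l := (Nat.bits n).reverse with hl
  have e1 : (StateTransition.eval (TM0.step M) (TM0.init (g0 :: l.map gb))).Dom ↔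
      ∃ b, StateTransition.Reaches (TM0.step M) ⟨default, Tape.mk₁ (g0 :: l.map gb)⟩ b ∧
        TM0.step M b = none := by
    rw [Part.dom_iff_mem]
    constructor
    · rintro ⟨b, hb⟩
      exact ⟨b, StateTransition.mem_eval.1 hb⟩
    · rintro ⟨b, hb⟩
      exact ⟨b, StateTransition.mem_eval.2 hb⟩
  rw [e1, halts_iff M default _ 0]
  have hrep : Rep blk ((g0, some (default : Λ)) :: l.map (fun x => (gb x, (none : Option Λ))))
      (cfgOf default (Tape.mk₁ (g0 :: l.map gb)) 0) 0 := by
    constructor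
    · intro i
      simp only [cfgOf, zero_add, sub_zero]
      cases i with
      | zero =>
        simp [Tape.mk₁, Tape.mk₂, Tape.mk']
      | succ i =>
        have h0 : ¬ (((i + 1 : ℕ) : ℤ) = 0) := by omega
        rw [if_neg h0, List.getD_cons_succ, tape_pos]
        rw [List.getI, List.getD_cons_succ]
        simp only [List.getD_eq_getElem?_getD, List.getElem?_map, blk]
        cases l[i]? <;> rfl
    · intro i
      simp only [cfgOf, zero_sub, sub_zero]
      have h0 : ¬ ((-1 - (i : ℤ)) = 0) := by omega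
      rw [if_neg h0, tape_neg]
      rfl
  have hnb : ¬ HaltC M (blk : Γ × Option Λ) := by
    rintro ⟨q, h, -⟩
    simp [blk] at h
  constructor
  · rintro ⟨j, hj⟩
    obtain ⟨p, hp⟩ := ((hrep.iterate (rule M) (rule_blk M) (j + 1)).exists_iff hnb).1 hj
    exact ⟨j + 1, p, hp⟩
  · rintro ⟨j, p, hp⟩
    refine ⟨j, ?_⟩
    refine ((hrep.iterate (rule M) (rule_blk M) (j + 1)).exists_iff hnb).2 ⟨p, ?_⟩
    rw [Function.iterate_succ_apply']
    exact hp.rule _ _

end Pool.Agent.Undec
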