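import Pool.Agent.Undec.Fmt
import Pool.Agent.Undec.Source

/-! The reduction. -/

namespace Pool.Agent.Undec

lemma exists_codes (C : Type) [Finite C] : ∃ (lc : Ltr C → ℕ) (sc : MS C → ℕ),
    Function.Injective lc ∧ (∀ a, 2 ≤ lc a) ∧ Function.Injective sc := by
  obtain ⟨g, hg⟩ := Countable.exists_injective_nat (Ltr C)
  obtain ⟨h, hh⟩ := Countable.exists_injective_nat (MS C)
  refine ⟨fun a => g a + 2, h, ?_, ?_, hh⟩
  · intro a b hab
    apply hg
    simpa using hab
  · intro a
    simp

lemma exists_fc : ∃ fc : (FS × Bool) × Fin 3 → ℕ, Function.Injective fc ∧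
    fc ((.S, false), 0) = 0 ∧ ∀ s, s ≠ ((.S, false), 0) → ¬ 2 ∣ fc s := by
  classical
  obtain ⟨g, hg⟩ := Countable.exists_injective_nat ((FS × Bool) × Fin 3)
  refine ⟨fun s => if s = ((.S, false), 0) then 0 else 2 * g s + 1, ?_, ?_, ?_⟩
  · intro a b hab
    by_cases ha : a = ((.S, false), 0)
    · by_cases hb : b = ((.S, false), 0)
      · rw [ha, hb]
      · simp only [ha, if_true, hb, if_false] at hab
        omega
    · by_cases hb : b = ((.S, false), 0)
      · simp only [ha, if_false, hb, if_true] at hab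
        omega
      · simp only [ha, hb, if_false] at hab
        apply hg
        omega
  · simp
  · intro s hs
    simp only [hs, if_false]
    omega

lemma exists_list {α : Type} {S : Set α} (hS : S.Finite) : ∃ T : List α, ∀ t, t ∈ T ↔ t ∈ S :=
  ⟨hS.toFinset.toList, fun t => by simp⟩

lemma primrec_chain : Primrec chain := by
  have hh : Primrec₂ (fun (_ : List ℕ) (p : ℕ × List (ℕ × ℕ × ℕ)) =>
      (2 * (p.2.length + 1), p.1, 2 * p.2.length) :: p.2) := by
    have hlen : Primrec (fun p : List ℕ × (ℕ × List (ℕ × ℕ × ℕ)) => p.2.2.length) :=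
      Primrec.list_length.comp (Primrec.snd.comp Primrec.snd)
    refine Primrec.list_cons.comp (Primrec.pair ?_ (Primrec.pair ?_ ?_))
      (Primrec.snd.comp Primrec.snd)
    · exact Primrec.nat_mul.comp (Primrec.const 2) (Primrec.succ.comp hlen)
    · exact Primrec.fst.comp Primrec.snd
    · exact Primrec.nat_mul.comp (Primrec.const 2) hlen
  exact Primrec.list_foldr (f := fun l : List ℕ => l)
    (g := fun _ => ([] : List (ℕ × ℕ × ℕ))) Primrec.id (Primrec.const []) hh

/-- histories of the automaton -/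
lemma chain_iff {C : Type} (H : C → Prop) (step : List C → List C) (W0 : List C) :
    (∃ Ws, Has H Ws ∧ List.IsChain (fun W W' => step W = W') (W0 :: Ws)) ↔
      ∃ j, ∃ y ∈ step^[j + 1] W0, H y := by
  constructor
  · rintro ⟨Ws, h1, h2⟩
    induction Ws generalizing W0 with
    | nil => simp [Has] at h1
    | cons W1 Ws ih =>
      rw [List.isChain_cons_cons] at h2
      obtain ⟨rfl, h2⟩ := h2
      rw [has_cons] at h1
      rcases h1 with h1 | h1
      · exact ⟨0, h1⟩
      · obtain ⟨j, h3⟩ := ih _ h1 h2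
        exact ⟨j + 1, h3⟩
  · rintro ⟨j, h⟩
    induction j generalizing W0 with
    | zero =>
      refine ⟨[step W0], ?_, ?_⟩
      · rw [has_cons]
        exact Or.inl h
      · simp
    | succ j ih =>
      obtain ⟨Ws, h1, h2⟩ := ih (step W0) h
      refine ⟨step W0 :: Ws, ?_, ?_⟩
      · rw [has_cons]
        exact Or.inr h1
      · rw [List.isChain_cons_cons]
        exact ⟨rfl, h2⟩

/-- the language inclusion and the reachability problem -/
theorem incl_iff {C : Type} (f : C → C → C → C) (b : C) (H : C → Prop) {lc : Ltr C → ℕ}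
    {sc : MS C → ℕ} {T : List ((ℕ × Option ℕ × Bool) × (ℕ × Bool × ℤ))}
    (hT : ∀ t, t ∈ T ↔ t ∈ Tab f b lc sc) (hsc : Function.Injective sc)
    (hlc : Function.Injective lc) (hl2 : ∀ a, 2 ≤ lc a)
    {fc : (FS × Bool) × Fin 3 → ℕ} {TF : List (ℕ × ℕ × ℕ)}
    (hTF : ∀ t, t ∈ TF ↔ t ∈ TabF H lc fc) (hfc : Function.Injective fc)
    (h0 : fc ((.S, false), 0) = 0) (hodd : ∀ s, s ≠ ((.S, false), 0) → ¬ 2 ∣ fc s)
    (W0 : List C) :
    (autom TF fc (expand lc (.pct :: (W0.map .cell ++ [.hash, .hash, .pct])))).lang ⊆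
      shuffle A1.lang (mach T sc).lang ↔ ¬ ∃ j, ∃ y ∈ (caStep f b)^[j + 1] W0, H y := by
  rw [autom_lang hTF hfc h0 hodd, ← chain_iff]
  have e : ∀ Ws, expand lc (.pct :: (W0.map .cell ++ [.hash, .hash, .pct])) ++
      expand lc (blocks Ws) = expand lc (.pct :: blocks (W0 :: Ws)) := by
    intro Ws
    simp [expand, blocks]
  constructor
  · rintro h ⟨Ws, h1, h2⟩
    have h3 := h ⟨Ws, rfl, h1⟩
    rw [e, shuffle_iff hT hsc hlc hl2, A_hist] at h3
    exact h3 h2
  · rintro h w ⟨Ws, rfl, h1⟩
    rw [e, shuffle_iff hT hsc hlc hl2, A_hist]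
    intro h2
    exact h ⟨Ws, h1, h2⟩

/-- the word of the initial configuration is computable -/
lemma primrec_start {C : Type} (lc : Ltr C → ℕ) (c0 : C) (g : Bool → C) :
    Primrec (fun n : ℕ => expand lc (.pct :: ((c0 :: (Nat.bits n).reverse.map g).map .cell ++
      [.hash, .hash, .pct]))) := by
  have h1 : Primrec (fun n : ℕ => (Nat.bits n).reverse) :=
    Primrec.list_reverse.comp OneRel.primrec_bits
  have h2 : Primrec (fun x : Bool => [lc (.cell (g x)), 0, 1]) := Primrec.dom_finite _
  have h3 : Primrec (fun n : ℕ => (Nat.bits n).reverse.flatMap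
      (fun x => [lc (.cell (g x)), 0, 1])) :=
    Primrec.list_flatMap h1 (h2.comp Primrec.snd).to₂
  have h4 : Primrec (fun n : ℕ => (expand lc [.pct, .cell c0] ++
      (Nat.bits n).reverse.flatMap (fun x => [lc (.cell (g x)), 0, 1])) ++
      expand lc [.hash, .hash, .pct]) :=
    Primrec.list_append.comp (Primrec.list_append.comp (Primrec.const _) h3) (Primrec.const _)
  refine h4.of_eq ?_
  intro n
  generalize (Nat.bits n).reverse = l
  simp [expand, List.flatMap_map]

/-- the inclusion problem is undecidable, with both languages on the right fixed -/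
theorem fixed_undec : ∃ M₂ : CM, M₂.IsDCM11 ∧ ¬ ∃ F : FA → Bool, Computable F ∧
    ∀ A : FA, A.Det → (F A = true ↔ A.lang ⊆ shuffle A1.lang M₂.lang) := by
  obtain ⟨C, i1, f, b, H, c0, g, -, hund⟩ := ca_undec
  obtain ⟨lc, sc, hlc, hl2, hsc⟩ := exists_codes C
  obtain ⟨fc, hfc, h0, hodd⟩ := exists_fc
  obtain ⟨T, hT⟩ := exists_list (Tab_finite f b lc sc)
  obtain ⟨TF, hTF⟩ := exists_list (TabF_finite H lc fc)
  refine ⟨mach T sc, ⟨mach_isDCA hT hsc hlc, mach_oneReversal hT hsc⟩, ?_⟩
  rintro ⟨F, hF, hA⟩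
  apply hund
  set P : ℕ → List ℕ := fun n => expand lc
    (.pct :: ((c0 :: (Nat.bits n).reverse.map g).map .cell ++ [.hash, .hash, .pct])) with hP
  have hPp : Primrec P := primrec_start lc c0 g
  have hL : Primrec (fun n => autom TF fc (P n)) := by
    refine Primrec.pair ?_ (Primrec.pair (Primrec.const _) ?_)
    · exact Primrec.nat_mul.comp (Primrec.const 2) (Primrec.list_length.comp hPp)
    · exact Primrec.list_append.comp (primrec_chain.comp hPp) (Primrec.const _)
  have hc : Computable (fun n => !(F (autom TF fc (P n)))) :=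
    (Primrec.not.to_comp).comp (hF.comp hL.to_comp)
  rw [ComputablePred.computable_iff]
  refine ⟨_, hc, ?_⟩
  funext n
  have h1 := hA (autom TF fc (P n)) (det_autom hTF hfc h0 hodd hlc)
  rw [incl_iff f b H hT hsc hlc hl2 hTF hfc h0 hodd] at h1
  simp only [Bool.not_eq_true', eq_iff_iff]
  rw [← Bool.not_eq_true, h1, not_not]

end Pool.Agent.Undec
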