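import Pool.Agent.Undec.Shuf

/-! The regular languages of the reduction: histories starting with a given word and
containing a halting cell. -/

namespace Pool.Agent.Undec

variable {C : Type}

/-- phases inside a block -/
inductive FS : Type
  | S | I | h1 | h2

instance : Finite FS := by
  have : Function.Surjective (fun x : Bool × Bool => match x with
    | (true, true) => FS.S
    | (true, false) => FS.I
    | (false, true) => FS.h1
    | (false, false) => FS.h2) := by
    intro y
    cases y with
    | S => exact ⟨(true, true), rfl⟩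
    | I => exact ⟨(true, false), rfl⟩
    | h1 => exact ⟨(false, true), rfl⟩
    | h2 => exact ⟨(false, false), rfl⟩
  exact Finite.of_surjective _ this

open Classical in
/-- checking the format of blocks -/
noncomputable def stepF (H : C → Prop) : FS × Bool → Ltr C → Option (FS × Bool)
  | (.S, t), .cell x => some (.I, t || decide (H x))
  | (.S, t), .hash => some (.h1, t)
  | (.I, t), .cell x => some (.I, t || decide (H x))
  | (.I, t), .hash => some (.h1, t)
  | (.h1, t), .hash => some (.h2, t)
  | (.h2, t), .pct => some (.S, t)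
  | _, _ => none

/-- acceptance -/
def accF (H : C → Prop) : FS × Bool → List (Ltr C) → Prop
  | s, [] => s = (.S, true)
  | s, a :: hs => ∃ s', stepF H s a = some s' ∧ accF H s' hs

/-- some word has a cell in `H` -/
def Has (H : C → Prop) (Ws : List (List C)) : Prop := ∃ W ∈ Ws, ∃ y ∈ W, H y

lemma has_cons (H : C → Prop) (W : List C) (Ws : List (List C)) :
    Has H (W :: Ws) ↔ (∃ y ∈ W, H y) ∨ Has H Ws := by
  simp [Has]

lemma accF_iff (H : C → Prop) : ∀ (hs : List (Ltr C)) (t : Bool),
    (accF H (.S, t) hs ↔ ∃ Ws, hs = blocks Ws ∧ (t = true ∨ Has H Ws)) ∧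
    (accF H (.I, t) hs ↔ ∃ (W : List C) (Ws : List (List C)), hs = W.map .cell ++ .hash :: .hash :: .pct :: blocks Ws ∧
      (t = true ∨ (∃ y ∈ W, H y) ∨ Has H Ws)) ∧
    (accF H (.h1, t) hs ↔ ∃ Ws, hs = .hash :: .pct :: blocks Ws ∧ (t = true ∨ Has H Ws)) ∧
    (accF H (.h2, t) hs ↔ ∃ Ws, hs = .pct :: blocks Ws ∧ (t = true ∨ Has H Ws)) := by
  intro hs
  induction hs with
  | nil =>
    intro t
    refine ⟨?_, ?_, ?_, ?_⟩
    · simp only [accF, Prod.mk.injEq, true_and]
      constructor
      · intro h
        exact ⟨[], rfl, Or.inl h⟩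
      · rintro ⟨Ws, h1, h2⟩
        cases Ws with
        | nil => simpa [Has] using h2
        | cons W Ws => simp [blocks] at h1
    · simp only [accF, Prod.mk.injEq, reduceCtorEq, false_and, false_iff]
      rintro ⟨W, Ws, h, -⟩
      simp at h
    · simp [accF]
    · simp [accF]
  | cons a hs ih =>
    intro t
    have key : ∀ s, s = FS.S ∨ s = FS.I → (accF H (s, t) (a :: hs) ↔
        ∃ (W : List C) (Ws : List (List C)), a :: hs = W.map .cell ++ .hash :: .hash :: .pct :: blocks Ws ∧
          (t = true ∨ (∃ y ∈ W, H y) ∨ Has H Ws)) := by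
      intro s hs'
      rw [accF]
      cases a with
      | cell x =>
        have e1 : stepF H (s, t) (.cell x) = some (.I, t || (by classical exact decide (H x))) := by
          rcases hs' with rfl | rfl <;> rfl
        rw [e1]
        simp only [Option.some.injEq, exists_eq_left', (ih _).2.1]
        constructor
        · rintro ⟨W, Ws, h1, h2⟩
          refine ⟨x :: W, Ws, by simp [h1], ?_⟩
          simp only [Bool.or_eq_true, decide_eq_true_eq] at h2
          rcases h2 with (h | h) | h | h
          · exact Or.inl h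
          · exact Or.inr (Or.inl ⟨x, by simp, h⟩)
          · obtain ⟨y, hy, hH⟩ := h
            exact Or.inr (Or.inl ⟨y, by simp [hy], hH⟩)
          · exact Or.inr (Or.inr h)
        · rintro ⟨W, Ws, h1, h2⟩
          cases W with
          | nil => simp at h1
          | cons y W =>
            simp only [List.map_cons, List.cons_append, List.cons.injEq, Ltr.cell.injEq] at h1
            obtain ⟨rfl, h1⟩ := h1
            refine ⟨W, Ws, h1, ?_⟩
            simp only [Bool.or_eq_true, decide_eq_true_eq]
            rcases h2 with h | ⟨y, hy, hH⟩ | h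
            · exact Or.inl (Or.inl h)
            · rcases List.mem_cons.1 hy with rfl | hy
              · exact Or.inl (Or.inr hH)
              · exact Or.inr (Or.inl ⟨y, hy, hH⟩)
            · exact Or.inr (Or.inr h)
      | hash =>
        have e1 : stepF H (s, t) .hash = some (.h1, t) := by
          rcases hs' with rfl | rfl <;> rfl
        rw [e1]
        simp only [Option.some.injEq, exists_eq_left', (ih _).2.2.1]
        constructor
        · rintro ⟨Ws, h1, h2⟩
          exact ⟨[], Ws, by simp [h1], by simpa using h2⟩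
        · rintro ⟨W, Ws, h1, h2⟩
          cases W with
          | nil =>
            simp only [List.map_nil, List.nil_append, List.cons.injEq, true_and] at h1
            exact ⟨Ws, h1, by simpa using h2⟩
          | cons y W => simp at h1
      | pct =>
        have e1 : stepF H (s, t) .pct = none := by
          rcases hs' with rfl | rfl <;> rfl
        rw [e1]
        simp only [reduceCtorEq, false_and, exists_false, false_iff]
        rintro ⟨W, Ws, h, -⟩
        cases W <;> simp at h
    refine ⟨?_, key .I (Or.inr rfl), ?_, ?_⟩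
    · rw [key .S (Or.inl rfl)]
      constructor
      · rintro ⟨W, Ws, h1, h2⟩
        exact ⟨W :: Ws, h1, by rw [has_cons]; exact h2⟩
      · rintro ⟨Ws, h1, h2⟩
        cases Ws with
        | nil => simp [blocks] at h1
        | cons W Ws => exact ⟨W, Ws, h1, by rw [has_cons] at h2; exact h2⟩
    · rw [accF]
      cases a with
      | cell x => simp [stepF]
      | hash =>
        have e1 : stepF H (.h1, t) (.hash : Ltr C) = some (.h2, t) := rfl
        rw [e1]
        simp only [Option.some.injEq, exists_eq_left', (ih _).2.2.2, List.cons.injEq, true_and]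
      | pct => simp [stepF]
    · rw [accF]
      cases a with
      | cell x => simp [stepF]
      | hash => simp [stepF]
      | pct =>
        have e1 : stepF H (.h2, t) (.pct : Ltr C) = some (.S, t) := rfl
        rw [e1]
        simp only [Option.some.injEq, exists_eq_left', (ih _).1, List.cons.injEq, true_and]

/-- the fixed part of the table -/
def TabF (H : C → Prop) (lc : Ltr C → ℕ) (fc : (FS × Bool) × Fin 3 → ℕ) : Set (ℕ × ℕ × ℕ) :=
  {t | ∃ s a s', stepF H s a = some s' ∧ t = (fc (s, 0), lc a, fc (s', 1))} ∪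
  {t | ∃ s, t = (fc (s, 1), 0, fc (s, 2))} ∪ {t | ∃ s, t = (fc (s, 2), 1, fc (s, 0))}

lemma TabF_finite [Finite C] (H : C → Prop) (lc : Ltr C → ℕ) (fc : (FS × Bool) × Fin 3 → ℕ) :
    (TabF H lc fc).Finite := by
  refine Set.Finite.union (Set.Finite.union ?_ ?_) ?_
  · refine Set.Finite.subset (Set.finite_range (fun p : (FS × Bool) × Ltr C × (FS × Bool) =>
      (fc (p.1, 0), lc p.2.1, fc (p.2.2, 1)))) ?_
    rintro t ⟨s, a, s', -, rfl⟩
    exact ⟨(s, a, s'), rfl⟩
  · refine Set.Finite.subset (Set.finite_range (fun s : FS × Bool =>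
      (fc (s, 1), 0, fc (s, 2)))) ?_
    rintro t ⟨s, rfl⟩
    exact ⟨s, rfl⟩
  · refine Set.Finite.subset (Set.finite_range (fun s : FS × Bool =>
      (fc (s, 2), 1, fc (s, 0)))) ?_
    rintro t ⟨s, rfl⟩
    exact ⟨s, rfl⟩

/-- the transitions reading a given word, ending in the state `0` -/
def chain (l : List ℕ) : List (ℕ × ℕ × ℕ) :=
  l.foldr (fun a S => (2 * (S.length + 1), a, 2 * S.length) :: S) []

lemma chain_cons (a : ℕ) (l : List ℕ) : chain (a :: l) =
    (2 * ((chain l).length + 1), a, 2 * (chain l).length) :: chain l := rfl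

lemma chain_length (l : List ℕ) : (chain l).length = l.length := by
  induction l with
  | nil => rfl
  | cons a l ih => rw [chain_cons]; simp [ih]

lemma mem_chain {l : List ℕ} {q a q₁ : ℕ} : (q, a, q₁) ∈ chain l ↔
    ∃ l' l'', l = l' ++ a :: l'' ∧ q = 2 * (l''.length + 1) ∧ q₁ = 2 * l''.length := by
  induction l with
  | nil => simp [chain]
  | cons x l ih =>
    rw [chain_cons, List.mem_cons, ih, chain_length]
    constructor
    · rintro (h | ⟨l', l'', rfl, h1, h2⟩)
      · simp only [Prod.mk.injEq] at h
        obtain ⟨rfl, rfl, rfl⟩ := h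
        exact ⟨[], l, rfl, rfl, rfl⟩
      · exact ⟨x :: l', l'', rfl, h1, h2⟩
    · rintro ⟨l', l'', h, h1, h2⟩
      cases l' with
      | nil =>
        simp only [List.nil_append, List.cons.injEq] at h
        obtain ⟨rfl, rfl⟩ := h
        left
        rw [h1, h2]
      | cons y l' =>
        simp only [List.cons_append, List.cons.injEq] at h
        exact Or.inr ⟨l', l'', h.2, h1, h2⟩

section lang

variable {H : C → Prop} {lc : Ltr C → ℕ} {fc : (FS × Bool) × Fin 3 → ℕ}
  {T : List (ℕ × ℕ × ℕ)} {P : List ℕ}

/-- the automaton for the words `P w`, with `w` in the fixed language -/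
def autom (T : List (ℕ × ℕ × ℕ)) (fc : (FS × Bool) × Fin 3 → ℕ) (P : List ℕ) : FA :=
  (2 * P.length, [fc ((.S, true), 0)], chain P ++ T)

lemma fc_not_chain (hfc : Function.Injective fc) (h0 : fc ((.S, false), 0) = 0)
    (hodd : ∀ s, s ≠ ((.S, false), 0) → ¬ 2 ∣ fc s) (s : (FS × Bool) × Fin 3) {a q₁ : ℕ} :
    (fc s, a, q₁) ∉ chain P := by
  rw [mem_chain]
  rintro ⟨l', l'', -, h1, -⟩
  by_cases hs : s = ((.S, false), 0)
  · rw [hs, h0] at h1
    omega
  · exact hodd s hs ⟨_, h1⟩

lemma det_autom (hT : ∀ t, t ∈ T ↔ t ∈ TabF H lc fc) (hfc : Function.Injective fc)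
    (h0 : fc ((.S, false), 0) = 0) (hodd : ∀ s, s ≠ ((.S, false), 0) → ¬ 2 ∣ fc s)
    (hlc : Function.Injective lc) : (autom T fc P).Det := by
  intro q a q₁ q₂ h1 h2
  simp only [autom, List.mem_append] at h1 h2
  have hTf : ∀ {q a q₁}, (q, a, q₁) ∈ T → ∃ s, q = fc s := by
    intro q a q₁ h
    rw [hT] at h
    rcases h with (⟨s, a, s', -, h⟩ | ⟨s, h⟩) | ⟨s, h⟩ <;>
    · simp only [Prod.mk.injEq] at h
      exact ⟨_, h.1⟩
  rcases h1 with h1 | h1
  · rcases h2 with h2 | h2
    · rw [mem_chain] at h1 h2
      obtain ⟨l', l'', -, e1, e2⟩ := h1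
      obtain ⟨m', m'', -, e3, e4⟩ := h2
      omega
    · obtain ⟨s, rfl⟩ := hTf h2
      exact absurd h1 (fc_not_chain hfc h0 hodd s)
  · rcases h2 with h2 | h2
    · obtain ⟨s, rfl⟩ := hTf h1
      exact absurd h2 (fc_not_chain hfc h0 hodd s)
    · rw [hT] at h1 h2
      rcases h1 with (⟨s, a, s', hs, h⟩ | ⟨s, h⟩) | ⟨s, h⟩
      · simp only [Prod.mk.injEq] at h
        obtain ⟨rfl, rfl, rfl⟩ := h
        rcases h2 with (⟨s1, a1, s1', hs1, h⟩ | ⟨s1, h⟩) | ⟨s1, h⟩
        · simp only [Prod.mk.injEq] at h
          obtain ⟨h1, h2, rfl⟩ := h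
          have := hfc h1
          have h3 := hlc h2
          simp only [Prod.mk.injEq, and_true] at this
          subst this
          subst h3
          rw [hs] at hs1
          simp only [Option.some.injEq] at hs1
          rw [hs1]
        · simp only [Prod.mk.injEq] at h
          have := hfc h.1
          simp at this
        · simp only [Prod.mk.injEq] at h
          have := hfc h.1
          simp at this
      · simp only [Prod.mk.injEq] at h
        obtain ⟨rfl, rfl, rfl⟩ := h
        rcases h2 with (⟨s1, a1, s1', hs1, h⟩ | ⟨s1, h⟩) | ⟨s1, h⟩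
        · simp only [Prod.mk.injEq] at h
          have := hfc h.1
          simp at this
        · simp only [Prod.mk.injEq] at h
          obtain ⟨h1, h2, rfl⟩ := h
          have := hfc h1
          simp only [Prod.mk.injEq, and_true] at this
          rw [this]
        · simp only [Prod.mk.injEq] at h
          have := hfc h.1
          simp at this
      · simp only [Prod.mk.injEq] at h
        obtain ⟨rfl, rfl, rfl⟩ := h
        rcases h2 with (⟨s1, a1, s1', hs1, h⟩ | ⟨s1, h⟩) | ⟨s1, h⟩
        · simp only [Prod.mk.injEq] at h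
          have := hfc h.1
          simp at this
        · simp only [Prod.mk.injEq] at h
          have := hfc h.1
          simp at this
        · simp only [Prod.mk.injEq] at h
          obtain ⟨h1, h2, rfl⟩ := h
          have := hfc h1
          simp only [Prod.mk.injEq, and_true] at this
          rw [this]

lemma run_fixed (hT : ∀ t, t ∈ T ↔ t ∈ TabF H lc fc) (hfc : Function.Injective fc)
    (h0 : fc ((.S, false), 0) = 0) (hodd : ∀ s, s ≠ ((.S, false), 0) → ¬ 2 ∣ fc s)
    {q : ℕ} {w : List ℕ} {q₁ : ℕ} (h : FARun (chain P ++ T) q w q₁)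
    (hq : q₁ = fc ((.S, true), 0)) :
    (∀ s, q = fc (s, 0) → ∃ hs, w = expand lc hs ∧ accF H s hs) ∧
    (∀ s, q = fc (s, 1) → ∃ hs, w = 0 :: 1 :: expand lc hs ∧ accF H s hs) ∧
    (∀ s, q = fc (s, 2) → ∃ hs, w = 1 :: expand lc hs ∧ accF H s hs) := by
  induction h with
  | nil q =>
    subst hq
    refine ⟨?_, ?_, ?_⟩
    · intro s h
      have := hfc h
      simp only [Prod.mk.injEq, and_true] at this
      exact ⟨[], rfl, by rw [accF]; exact this.symm⟩
    · intro s h
      have := hfc h
      simp at this
    · intro s h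
      have := hfc h
      simp at this
  | @cons q a q₂ w q₁ hm _ ih =>
    obtain ⟨i0, i1, i2⟩ := ih hq
    rw [List.mem_append] at hm
    refine ⟨?_, ?_, ?_⟩
    · rintro s rfl
      rcases hm with hm | hm
      · exact absurd hm (fc_not_chain hfc h0 hodd _)
      rw [hT] at hm
      rcases hm with (⟨s1, a1, s1', hs1, h⟩ | ⟨s1, h⟩) | ⟨s1, h⟩
      · simp only [Prod.mk.injEq] at h
        obtain ⟨h1, rfl, rfl⟩ := h
        have := hfc h1
        simp only [Prod.mk.injEq, and_true] at this
        subst this
        obtain ⟨hs, rfl, h3⟩ := i1 _ rfl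
        exact ⟨a1 :: hs, rfl, by rw [accF]; exact ⟨s1', hs1, h3⟩⟩
      · simp only [Prod.mk.injEq] at h
        have := hfc h.1
        simp at this
      · simp only [Prod.mk.injEq] at h
        have := hfc h.1
        simp at this
    · rintro s rfl
      rcases hm with hm | hm
      · exact absurd hm (fc_not_chain hfc h0 hodd _)
      rw [hT] at hm
      rcases hm with (⟨s1, a1, s1', hs1, h⟩ | ⟨s1, h⟩) | ⟨s1, h⟩
      · simp only [Prod.mk.injEq] at h
        have := hfc h.1
        simp at this
      · simp only [Prod.mk.injEq] at h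
        obtain ⟨h1, rfl, rfl⟩ := h
        have := hfc h1
        simp only [Prod.mk.injEq, and_true] at this
        subst this
        obtain ⟨hs, rfl, h3⟩ := i2 _ rfl
        exact ⟨hs, rfl, h3⟩
      · simp only [Prod.mk.injEq] at h
        have := hfc h.1
        simp at this
    · rintro s rfl
      rcases hm with hm | hm
      · exact absurd hm (fc_not_chain hfc h0 hodd _)
      rw [hT] at hm
      rcases hm with (⟨s1, a1, s1', hs1, h⟩ | ⟨s1, h⟩) | ⟨s1, h⟩
      · simp only [Prod.mk.injEq] at h
        have := hfc h.1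
        simp at this
      · simp only [Prod.mk.injEq] at h
        have := hfc h.1
        simp at this
      · simp only [Prod.mk.injEq] at h
        obtain ⟨h1, rfl, rfl⟩ := h
        have := hfc h1
        simp only [Prod.mk.injEq, and_true] at this
        subst this
        obtain ⟨hs, rfl, h3⟩ := i0 _ rfl
        exact ⟨hs, rfl, h3⟩

lemma run_fixed' (hT : ∀ t, t ∈ T ↔ t ∈ TabF H lc fc) : ∀ (hs : List (Ltr C)) (s : FS × Bool),
    accF H s hs → FARun (chain P ++ T) (fc (s, 0)) (expand lc hs) (fc ((.S, true), 0)) := by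
  intro hs
  induction hs with
  | nil =>
    intro s h
    rw [accF] at h
    subst h
    exact FARun.nil _
  | cons a hs ih =>
    intro s h
    rw [accF] at h
    obtain ⟨s', h1, h2⟩ := h
    rw [expand_cons]
    refine FARun.cons (q₁ := fc (s', 1)) ?_ (FARun.cons (q₁ := fc (s', 2)) ?_
      (FARun.cons (q₁ := fc (s', 0)) ?_ (ih s' h2)))
    · exact List.mem_append_right _ ((hT _).2 (Or.inl (Or.inl ⟨s, a, s', h1, rfl⟩)))
    · exact List.mem_append_right _ ((hT _).2 (Or.inl (Or.inr ⟨s', rfl⟩)))
    · exact List.mem_append_right _ ((hT _).2 (Or.inr ⟨s', rfl⟩))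

lemma run_chain (hT : ∀ t, t ∈ T ↔ t ∈ TabF H lc fc)
    (h0 : fc ((.S, false), 0) = 0) (hodd : ∀ s, s ≠ ((.S, false), 0) → ¬ 2 ∣ fc s) :
    ∀ (l l' w : List ℕ), P = l' ++ l →
      FARun (chain P ++ T) (2 * l.length) w (fc ((.S, true), 0)) →
      ∃ w', w = l ++ w' ∧ FARun (chain P ++ T) 0 w' (fc ((.S, true), 0)) := by
  intro l
  induction l with
  | nil =>
    intro l' w _ h
    exact ⟨w, rfl, h⟩
  | cons x l ih =>
    intro l' w hP h
    cases w with
    | nil =>
      generalize hq : fc ((.S, true), 0) = q at h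
      cases h
      exact absurd ⟨_, hq⟩ (hodd ((.S, true), 0) (by simp))
    | cons a w =>
      cases h with
      | @cons _ _ q₁ _ _ hm hr =>
        rw [List.mem_append] at hm
        rcases hm with hm | hm
        · rw [mem_chain] at hm
          obtain ⟨m', m'', h1, h2, h3⟩ := hm
          have hlen : m''.length = l.length := by
            simp only [List.length_cons] at h2
            omega
          rw [hP] at h1
          have h4 := List.append_inj_right' h1 (by simp [hlen])
          simp only [List.cons.injEq] at h4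
          obtain ⟨rfl, rfl⟩ := h4
          subst h3
          obtain ⟨w', rfl, h5⟩ := ih (l' ++ [x]) w (by simp [hP]) hr
          exact ⟨w', rfl, h5⟩
        · exfalso
          rw [hT] at hm
          have hh : ∃ s, 2 * (x :: l).length = fc s := by
            rcases hm with (⟨s, a, s', -, h⟩ | ⟨s, h⟩) | ⟨s, h⟩ <;>
            · simp only [Prod.mk.injEq] at h
              exact ⟨_, h.1⟩
          obtain ⟨s, hs⟩ := hh
          by_cases hs0 : s = ((.S, false), 0)
          · rw [hs0, h0] at hs
            simp at hs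
          · exact hodd s hs0 ⟨_, hs.symm⟩

lemma run_chain' : ∀ (l l' w : List ℕ), P = l' ++ l →
      FARun (chain P ++ T) 0 w (fc ((.S, true), 0)) →
      FARun (chain P ++ T) (2 * l.length) (l ++ w) (fc ((.S, true), 0)) := by
  intro l
  induction l with
  | nil =>
    intro l' w _ h
    exact h
  | cons x l ih =>
    intro l' w hP h
    refine FARun.cons (q₁ := 2 * l.length) ?_ (ih (l' ++ [x]) w (by simp [hP]) h)
    refine List.mem_append_left _ (mem_chain.2 ⟨l', l, hP, rfl, rfl⟩)

theorem autom_lang (hT : ∀ t, t ∈ T ↔ t ∈ TabF H lc fc) (hfc : Function.Injective fc)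
    (h0 : fc ((.S, false), 0) = 0) (hodd : ∀ s, s ≠ ((.S, false), 0) → ¬ 2 ∣ fc s) :
    (autom T fc P).lang = {w | ∃ Ws, w = P ++ expand lc (blocks Ws) ∧ Has H Ws} := by
  ext w
  constructor
  · rintro ⟨q, hq, hr⟩
    simp only [autom, List.mem_singleton] at hq
    subst hq
    change FARun (chain P ++ T) (2 * P.length) w _ at hr
    obtain ⟨w', rfl, h1⟩ := run_chain hT h0 hodd P [] w rfl hr
    rw [← h0] at h1
    obtain ⟨hs, rfl, h2⟩ := (run_fixed hT hfc h0 hodd h1 rfl).1 _ rfl
    obtain ⟨Ws, rfl, h3⟩ := ((accF_iff H hs false).1).1 h2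
    exact ⟨Ws, rfl, by simpa using h3⟩
  · rintro ⟨Ws, rfl, h⟩
    refine ⟨fc ((.S, true), 0), by simp [autom], ?_⟩
    change FARun (chain P ++ T) (2 * P.length) _ _
    refine run_chain' P [] _ rfl ?_
    rw [← h0]
    exact run_fixed' hT _ _ (((accF_iff H _ false).1).2 ⟨Ws, rfl, Or.inr h⟩)

end lang

end Pool.Agent.Undec
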