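import Pool.Agent.Undec.CA

/-! Histories of the automaton, and detection of an error with a counter. -/

namespace Pool.Agent.Undec

/-- letters of histories -/
inductive Ltr (C : Type) : Type
  | cell (c : C) : Ltr C
  | hash : Ltr C
  | pct : Ltr C

variable {C : Type}

/-- the cell read in a letter -/
def rd (b : C) : Ltr C → C
  | .cell c => c
  | .hash => b
  | .pct => b

/-- phases of the error detector -/
inductive DS (C : Type) : Type
  | P0 : DS C
  | P1 (l1 l2 : C) : DS C
  | P2 (e : Ltr C) : DS C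
  | P3 (e : Ltr C) : DS C
  | Ac : DS C

open Classical in
/-- one step of the detector: phase, zero test, letter, choice -/
noncomputable def stepD (f : C → C → C → C) (b : C) :
    DS C → Bool → Ltr C → Bool → Option (DS C × ℤ)
  | .P0, _, .pct, true => some (.P1 b b, 0)
  | .P0, _, _, _ => some (.P0, 0)
  | .P1 _ _, _, .pct, false => none
  | .P1 _ _, _, .pct, true => some (.P3 .hash, 0)
  | .P1 _ l2, _, a, false => some (.P1 l2 (rd b a), 1)
  | .P1 l1 l2, _, a, true => some (.P2 (.cell (f l1 l2 (rd b a))), 0)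
  | .P2 e, _, .pct, _ => some (.P3 e, 0)
  | .P2 e, _, _, _ => some (.P2 e, 0)
  | .P3 e, false, _, _ => some (.P3 e, -1)
  | .P3 e, true, a, _ => if a = e then none else some (.Ac, 0)
  | .Ac, _, _, _ => some (.Ac, 0)

/-- the detector can accept -/
def A (f : C → C → C → C) (b : C) : DS C → ℕ → List (Ltr C) → Prop
  | s, _, [] => s = .Ac
  | s, c, a :: hs => ∃ (ch : Bool) (s' : DS C) (d : ℤ) (c' : ℕ), stepD f b s (decide (c = 0)) a ch = some (s', d) ∧
      (c' : ℤ) = (c : ℤ) + d ∧ A f b s' c' hs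

section

variable (f : C → C → C → C) (b : C)

lemma A_nil (s : DS C) (c : ℕ) : A f b s c [] ↔ s = .Ac := by rw [A]

lemma A_cons (s : DS C) (c : ℕ) (a : Ltr C) (hs : List (Ltr C)) : A f b s c (a :: hs) ↔
    ∃ (ch : Bool) (s' : DS C) (d : ℤ) (c' : ℕ), stepD f b s (decide (c = 0)) a ch = some (s', d) ∧
      (c' : ℤ) = (c : ℤ) + d ∧ A f b s' c' hs := by rw [A]

lemma A_Ac (hs : List (Ltr C)) : ∀ c, A f b .Ac c hs := by
  induction hs with
  | nil => intro c; rw [A_nil]
  | cons a hs ih =>
    intro c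
    rw [A_cons]
    exact ⟨true, .Ac, 0, c, by simp [stepD], by simp, ih c⟩

lemma A_P3_zero (e a : Ltr C) (hs : List (Ltr C)) : A f b (.P3 e) 0 (a :: hs) ↔ a ≠ e := by
  rw [A_cons]
  constructor
  · rintro ⟨ch, s', d, c', h1, h2, h3⟩
    intro hae
    simp [stepD, hae] at h1
  · intro h
    exact ⟨true, .Ac, 0, 0, by simp [stepD, h], by simp, A_Ac f b hs 0⟩

lemma A_P3_succ (e a : Ltr C) (c : ℕ) (hs : List (Ltr C)) :
    A f b (.P3 e) (c + 1) (a :: hs) ↔ A f b (.P3 e) c hs := by
  rw [A_cons]
  constructor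
  · rintro ⟨ch, s', d, c', h1, h2, h3⟩
    simp only [Nat.add_eq_zero_iff, one_ne_zero, and_false, decide_false, stepD,
      Option.some.injEq, Prod.mk.injEq] at h1
    obtain ⟨rfl, rfl⟩ := h1
    have : c' = c := by push_cast at h2; omega
    rwa [this] at h3
  · intro h
    exact ⟨true, .P3 e, -1, c, by simp [stepD], by push_cast; ring, h⟩

lemma A_P3 (e : Ltr C) (hs : List (Ltr C)) : ∀ c, A f b (.P3 e) c hs ↔
    ∃ x, hs[c]? = some x ∧ x ≠ e := by
  induction hs with
  | nil => intro c; rw [A_nil]; simp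
  | cons a hs ih =>
    intro c
    cases c with
    | zero => rw [A_P3_zero]; simp
    | succ c => rw [A_P3_succ, ih]; simp

lemma A_P2_cell (e : Ltr C) (x : C) (c : ℕ) (hs : List (Ltr C)) :
    A f b (.P2 e) c (.cell x :: hs) ↔ A f b (.P2 e) c hs := by
  rw [A_cons]
  constructor
  · rintro ⟨ch, s', d, c', h1, h2, h3⟩
    simp only [stepD, Option.some.injEq, Prod.mk.injEq] at h1
    obtain ⟨rfl, rfl⟩ := h1
    have : c' = c := by omega
    rwa [this] at h3
  · intro h
    exact ⟨true, .P2 e, 0, c, by simp [stepD], by simp, h⟩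

lemma A_P2_hash (e : Ltr C) (c : ℕ) (hs : List (Ltr C)) :
    A f b (.P2 e) c (.hash :: hs) ↔ A f b (.P2 e) c hs := by
  rw [A_cons]
  constructor
  · rintro ⟨ch, s', d, c', h1, h2, h3⟩
    simp only [stepD, Option.some.injEq, Prod.mk.injEq] at h1
    obtain ⟨rfl, rfl⟩ := h1
    have : c' = c := by omega
    rwa [this] at h3
  · intro h
    exact ⟨true, .P2 e, 0, c, by simp [stepD], by simp, h⟩

lemma A_P2_pct (e : Ltr C) (c : ℕ) (hs : List (Ltr C)) :
    A f b (.P2 e) c (.pct :: hs) ↔ A f b (.P3 e) c hs := by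
  rw [A_cons]
  constructor
  · rintro ⟨ch, s', d, c', h1, h2, h3⟩
    simp only [stepD, Option.some.injEq, Prod.mk.injEq] at h1
    obtain ⟨rfl, rfl⟩ := h1
    have : c' = c := by omega
    rwa [this] at h3
  · intro h
    exact ⟨true, .P3 e, 0, c, by simp [stepD], by simp, h⟩

lemma A_P1_aux (l1 l2 : C) (a : Ltr C) (ha : a ≠ .pct) (c : ℕ) (hs : List (Ltr C)) :
    A f b (.P1 l1 l2) c (a :: hs) ↔
      A f b (.P2 (.cell (f l1 l2 (rd b a)))) c hs ∨ A f b (.P1 l2 (rd b a)) (c + 1) hs := by
  have e1 : ∀ z, stepD f b (.P1 l1 l2) z a false = some (.P1 l2 (rd b a), 1) := by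
    intro z; cases a <;> simp_all [stepD]
  have e2 : ∀ z, stepD f b (.P1 l1 l2) z a true =
      some (.P2 (.cell (f l1 l2 (rd b a))), 0) := by
    intro z; cases a <;> simp_all [stepD]
  rw [A_cons]
  constructor
  · rintro ⟨ch, s', d, c', h1, h2, h3⟩
    cases ch with
    | false =>
      rw [e1, Option.some.injEq, Prod.mk.injEq] at h1
      obtain ⟨rfl, rfl⟩ := h1
      have : c' = c + 1 := by omega
      rw [this] at h3
      exact Or.inr h3
    | true =>
      rw [e2, Option.some.injEq, Prod.mk.injEq] at h1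
      obtain ⟨rfl, rfl⟩ := h1
      have : c' = c := by omega
      rw [this] at h3
      exact Or.inl h3
  · rintro (h | h)
    · exact ⟨true, _, 0, c, e2 _, by simp, h⟩
    · exact ⟨false, _, 1, c + 1, e1 _, by simp, h⟩

lemma A_P1_pct (l1 l2 : C) (c : ℕ) (hs : List (Ltr C)) :
    A f b (.P1 l1 l2) c (.pct :: hs) ↔ A f b (.P3 .hash) c hs := by
  rw [A_cons]
  constructor
  · rintro ⟨ch, s', d, c', h1, h2, h3⟩
    cases ch with
    | false => simp [stepD] at h1
    | true =>
      simp only [stepD, Option.some.injEq, Prod.mk.injEq] at h1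
      obtain ⟨rfl, rfl⟩ := h1
      have : c' = c := by omega
      rwa [this] at h3
  · intro h
    exact ⟨true, .P3 .hash, 0, c, by simp [stepD], by simp, h⟩

lemma A_P0_ne (a : Ltr C) (ha : a ≠ .pct) (c : ℕ) (hs : List (Ltr C)) :
    A f b .P0 c (a :: hs) ↔ A f b .P0 c hs := by
  have e1 : ∀ z ch, stepD f b .P0 z a ch = some (.P0, 0) := by
    intro z ch; cases a <;> cases ch <;> simp_all [stepD]
  rw [A_cons]
  constructor
  · rintro ⟨ch, s', d, c', h1, h2, h3⟩
    rw [e1, Option.some.injEq, Prod.mk.injEq] at h1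
    obtain ⟨rfl, rfl⟩ := h1
    have : c' = c := by omega
    rwa [this] at h3
  · intro h
    exact ⟨true, .P0, 0, c, e1 _ _, by simp, h⟩

lemma A_P0_pct (c : ℕ) (hs : List (Ltr C)) :
    A f b .P0 c (.pct :: hs) ↔ A f b (.P1 b b) c hs ∨ A f b .P0 c hs := by
  rw [A_cons]
  constructor
  · rintro ⟨ch, s', d, c', h1, h2, h3⟩
    cases ch with
    | false =>
      simp only [stepD, Option.some.injEq, Prod.mk.injEq] at h1
      obtain ⟨rfl, rfl⟩ := h1
      have : c' = c := by omega
      rw [this] at h3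
      exact Or.inr h3
    | true =>
      simp only [stepD, Option.some.injEq, Prod.mk.injEq] at h1
      obtain ⟨rfl, rfl⟩ := h1
      have : c' = c := by omega
      rw [this] at h3
      exact Or.inl h3
  · rintro (h | h)
    · exact ⟨true, .P1 b b, 0, c, by simp [stepD], by simp, h⟩
    · exact ⟨false, .P0, 0, c, by simp [stepD], by simp, h⟩

/-- the coded sequence of words -/
def blocks : List (List C) → List (Ltr C)
  | [] => []
  | W :: Ws => W.map .cell ++ .hash :: .hash :: .pct :: blocks Ws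

/-- the words `u` and `v` disagree at some position, counted from `c` in `v` -/
def Err (c : ℕ) (u v : List (Ltr C)) : Prop :=
  ∃ i e x, u[i]? = some e ∧ v[c + i]? = some x ∧ x ≠ e

lemma Err_nil (c : ℕ) (v : List (Ltr C)) : ¬ Err c [] v := by
  rintro ⟨i, e, x, h, -⟩
  simp at h

lemma Err_cons (c : ℕ) (e : Ltr C) (u v : List (Ltr C)) :
    Err c (e :: u) v ↔ (∃ x, v[c]? = some x ∧ x ≠ e) ∨ Err (c + 1) u v := by
  constructor
  · rintro ⟨i, e', x, h1, h2, h3⟩
    cases i with
    | zero =>
      simp only [List.length_cons, Nat.zero_lt_succ, getElem?_pos, List.getElem_cons_zero,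
        Option.some.injEq] at h1
      subst h1
      exact Or.inl ⟨x, by simpa using h2, h3⟩
    | succ i =>
      refine Or.inr ⟨i, e', x, by simpa using h1, ?_, h3⟩
      rw [← h2]
      congr 1
      omega
  · rintro (⟨x, h1, h2⟩ | ⟨i, e', x, h1, h2, h3⟩)
    · exact ⟨0, e, x, by simp, by simpa using h1, h2⟩
    · refine ⟨i + 1, e', x, by simpa using h1, ?_, h3⟩
      rw [← h2]
      congr 1
      omega

lemma Err_succ (c : ℕ) (y : Ltr C) (u v : List (Ltr C)) :
    Err (c + 1) u (y :: v) ↔ Err c u v := by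
  constructor
  · rintro ⟨i, e, x, h1, h2, h3⟩
    refine ⟨i, e, x, h1, ?_, h3⟩
    have : c + 1 + i = (c + i) + 1 := by omega
    rw [this, List.getElem?_cons_succ] at h2
    exact h2
  · rintro ⟨i, e, x, h1, h2, h3⟩
    refine ⟨i, e, x, h1, ?_, h3⟩
    have : c + 1 + i = (c + i) + 1 := by omega
    rw [this, List.getElem?_cons_succ]
    exact h2

lemma Err_cons_cons (e y : Ltr C) (u v : List (Ltr C)) :
    Err 0 (e :: u) (y :: v) ↔ y ≠ e ∨ Err 0 u v := by
  rw [Err_cons, Err_succ]
  simp

lemma Err_nil_right (c : ℕ) (u : List (Ltr C)) : ¬ Err c u [] := by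
  rintro ⟨i, e, x, -, h, -⟩
  simp at h

lemma Err_blocks (r : List (Ltr C)) : ∀ V W : List C,
    Err 0 (V.map .cell ++ [.hash]) (W.map .cell ++ .hash :: r) ↔ V ≠ W
  | [], [] => by
    simp only [List.map_nil, List.nil_append, Err_cons_cons]
    simp [Err_nil]
  | [], x :: W => by
    simp only [List.map_nil, List.nil_append, List.map_cons, List.cons_append, Err_cons_cons]
    simp
  | y :: V, [] => by
    simp only [List.map_nil, List.nil_append, List.map_cons, List.cons_append, Err_cons_cons]
    simp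
  | y :: V, x :: W => by
    simp only [List.map_cons, List.cons_append, Err_cons_cons, Err_blocks r V W]
    simp only [ne_eq, Ltr.cell.injEq, List.cons.injEq, not_and]
    constructor
    · rintro (h | h) h1
      · exact absurd h1.symm h
      · exact h
    · intro h
      by_cases h1 : x = y
      · exact Or.inr (h h1.symm)
      · exact Or.inl h1

lemma A_P2_block (e : Ltr C) (rest : List (Ltr C)) (c : ℕ) : ∀ W : List C,
    A f b (.P2 e) c (W.map .cell ++ .hash :: .hash :: .pct :: rest) ↔ A f b (.P3 e) c rest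
  | [] => by
    simp only [List.map_nil, List.nil_append, A_P2_hash, A_P2_pct]
  | x :: W => by
    simp only [List.map_cons, List.cons_append, A_P2_cell]
    exact A_P2_block e rest c W

lemma A_P1_block (rest : List (Ltr C)) : ∀ (W : List C) (l1 l2 : C) (c : ℕ),
    A f b (.P1 l1 l2) c (W.map .cell ++ .hash :: .hash :: .pct :: rest) ↔
      Err c ((scan f b l1 l2 W).map .cell ++ [.hash]) rest
  | [], l1, l2, c => by
    simp only [List.map_nil, List.nil_append, scan, List.map_cons, List.cons_append, Err_cons]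
    rw [A_P1_aux f b l1 l2 .hash (by simp), A_P1_aux f b _ _ .hash (by simp), A_P1_pct]
    simp only [A_P2_hash, A_P2_pct, A_P3, rd, Err_nil, or_false]
  | x :: W, l1, l2, c => by
    simp only [List.map_cons, List.cons_append, scan, Err_cons]
    rw [A_P1_aux f b l1 l2 (.cell x) (by simp), A_P2_block, A_P3]
    simp only [rd]
    rw [A_P1_block rest W l2 x (c + 1)]

lemma A_P0_block (rest : List (Ltr C)) (c : ℕ) : ∀ W : List C,
    A f b .P0 c (W.map .cell ++ .hash :: .hash :: .pct :: rest) ↔ A f b .P0 c (.pct :: rest)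
  | [] => by
    simp only [List.map_nil, List.nil_append]
    rw [A_P0_ne f b .hash (by simp), A_P0_ne f b .hash (by simp)]
  | x :: W => by
    simp only [List.map_cons, List.cons_append]
    rw [A_P0_ne f b (.cell x) (by simp)]
    exact A_P0_block rest c W

/-- the detector accepts exactly the wrong histories -/
theorem A_hist : ∀ Ws : List (List C), A f b .P0 0 (.pct :: blocks Ws) ↔
    ¬ List.IsChain (fun W W' => caStep f b W = W') Ws
  | [] => by
    rw [A_P0_pct]
    simp [blocks, A_nil]
  | [W] => by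
    rw [A_P0_pct]
    simp only [blocks]
    rw [A_P1_block, A_P0_block, A_P0_pct]
    simp [A_nil, Err_nil_right]
  | W :: W' :: Ws => by
    have ih := A_hist (W' :: Ws)
    rw [A_P0_pct, blocks, A_P1_block, A_P0_block, ih, List.isChain_cons_cons]
    have : Err 0 ((scan f b b b W).map .cell ++ [.hash]) (blocks (W' :: Ws)) ↔
        caStep f b W ≠ W' := by
      rw [blocks, Err_blocks]
      rfl
    rw [this]
    tauto

end

end Pool.Agent.Undec
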