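import Mathlib

/-!
# The decision problem of MP_732884_lc

Finite automata and deterministic one-counter machines as finite data, their languages, and the
shuffle of languages. Letters and states are natural numbers; a machine is a finite table, so
its language is a language over a finite alphabet.
-/

namespace Pool.Agent.Undec

/-- Finite automaton: start state, list of final states, list of transitions
`(state, letter, new state)`. -/
abbrev FA : Type := ℕ × List ℕ × List (ℕ × ℕ × ℕ)

/-- `T.Run q w q'`: there is a path from `q` to `q'` labelled `w`. -/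
inductive FARun (T : List (ℕ × ℕ × ℕ)) : ℕ → List ℕ → ℕ → Prop
  | nil (q : ℕ) : FARun T q [] q
  | cons {q a q₁ w q₂} : (q, a, q₁) ∈ T → FARun T q₁ w q₂ → FARun T q (a :: w) q₂

/-- the language of a finite automaton -/
def FA.lang (A : FA) : Set (List ℕ) := {w | ∃ q ∈ A.2.1, FARun A.2.2 A.1 w q}

/-- the automaton is deterministic -/
def FA.Det (A : FA) : Prop := ∀ q a q₁ q₂, (q, a, q₁) ∈ A.2.2 → (q, a, q₂) ∈ A.2.2 → q₁ = q₂

/-- One-counter machine with a one-way input head: start state, list of final states, and the
table of moves. An entry `((q, x, z), (q', adv, d))` says: in state `q`, with input symbol `x`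
under the head (`none` is the right end-marker) and with the counter zero iff `z = true`, go to
state `q'`, advance the head iff `adv = true`, and add `d` to the counter. -/
abbrev CM : Type := ℕ × List ℕ × List ((ℕ × Option ℕ × Bool) × (ℕ × Bool × ℤ))

/-- Configuration: state, rest of the input (with the end-marker), value of the counter. -/
abbrev Cfg : Type := ℕ × List (Option ℕ) × ℕ

/-- One move, adding `d` to the counter. -/
inductive CM.Step (M : CM) : Cfg → ℤ → Cfg → Prop
  | mk {q : ℕ} {x : Option ℕ} {rest : List (Option ℕ)} {c : ℕ} {q' : ℕ} {adv : Bool} {d : ℤ}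
      {c' : ℕ} : ((q, x, decide (c = 0)), (q', adv, d)) ∈ M.2.2 → (c' : ℤ) = (c : ℤ) + d →
      CM.Step M (q, x :: rest, c) d (q', if adv then rest else x :: rest, c')

/-- A computation, with the list of the numbers added to the counter. -/
inductive CM.Comp (M : CM) : Cfg → List ℤ → Cfg → Prop
  | nil (C : Cfg) : CM.Comp M C [] C
  | cons {C₁ d C₂ ds C₃} : M.Step C₁ d C₂ → CM.Comp M C₂ ds C₃ → CM.Comp M C₁ (d :: ds) C₃

/-- The initial configuration on the input `w`. -/
def CM.init (M : CM) (w : List ℕ) : Cfg := (M.1, w.map some ++ [none], 0)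

/-- The language: the words on which some computation reads the whole input with its end-marker
and ends in a final state. -/
def CM.lang (M : CM) : Set (List ℕ) :=
  {w | ∃ ds q c, M.Comp (M.init w) ds (q, [], c) ∧ q ∈ M.2.1}

/-- Deterministic one-counter automaton (DCA): at most one move for each state, symbol and zero
test; the counter changes by at most one in each move and is never decremented when zero. -/
def CM.IsDCA (M : CM) : Prop :=
  (∀ k v₁ v₂, (k, v₁) ∈ M.2.2 → (k, v₂) ∈ M.2.2 → v₁ = v₂) ∧
  ∀ q x z q' adv d, ((q, x, z), (q', adv, d)) ∈ M.2.2 →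
    (d = -1 ∨ d = 0 ∨ d = 1) ∧ (z = true → 0 ≤ d)

/-- The counter is 1-reversal-bounded: in no computation on any input is there an increment
after a decrement. -/
def CM.OneReversal (M : CM) : Prop :=
  ∀ w ds C, M.Comp (M.init w) ds C → ds.Pairwise (fun d₁ d₂ => ¬ (d₁ < 0 ∧ 0 < d₂))

/-- DCM(1,1): deterministic, with one counter, 1-reversal-bounded. -/
def CM.IsDCM11 (M : CM) : Prop := M.IsDCA ∧ M.OneReversal

/-- `w` is in the shuffle of `u` and `v`: for some `k ≥ 1`, `u = u₁ ⋯ u_k`, `v = v₁ ⋯ v_k` and
`w = u₁ v₁ ⋯ u_k v_k`. The list `B` holds the pairs `(u_i, v_i)`. -/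
def IsShuffle (u v w : List ℕ) : Prop :=
  ∃ B : List (List ℕ × List ℕ), B ≠ [] ∧ u = (B.map fun p => p.1).flatten ∧
    v = (B.map fun p => p.2).flatten ∧ w = (B.map fun p => p.1 ++ p.2).flatten

/-- The shuffle of two languages. -/
def shuffle (A B : Set (List ℕ)) : Set (List ℕ) := {w | ∃ u ∈ A, ∃ v ∈ B, IsShuffle u v w}

/-! ### Interleavings -/

/-- `w` is an interleaving of `u` and `v` -/
inductive Sh : List ℕ → List ℕ → List ℕ → Prop
  | nil : Sh [] [] []
  | left {u v w} (a : ℕ) : Sh u v w → Sh (a :: u) v (a :: w)
  | right {u v w} (a : ℕ) : Sh u v w → Sh u (a :: v) (a :: w)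

lemma Sh.appL {u v w : List ℕ} (h : Sh u v w) (x : List ℕ) : Sh (x ++ u) v (x ++ w) := by
  induction x with
  | nil => exact h
  | cons a x ih => exact Sh.left a ih

lemma Sh.appR {u v w : List ℕ} (h : Sh u v w) (x : List ℕ) : Sh u (x ++ v) (x ++ w) := by
  induction x with
  | nil => exact h
  | cons a x ih => exact Sh.right a ih

lemma isShuffle_iff {u v w : List ℕ} : IsShuffle u v w ↔ Sh u v w := by
  constructor
  · rintro ⟨B, -, rfl, rfl, rfl⟩
    induction B with
    | nil => exact Sh.nil
    | cons p B ih =>
      simp only [List.map_cons, List.flatten_cons, List.append_assoc]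
      exact (ih.appR p.2).appL p.1
  · intro h
    induction h with
    | nil => exact ⟨[([], [])], by simp, by simp, by simp, by simp⟩
    | left a _ ih =>
      obtain ⟨B, h0, h1, h2, h3⟩ := ih
      exact ⟨([a], []) :: B, by simp, by simp [h1], by simp [h2], by simp [h3]⟩
    | right a _ ih =>
      obtain ⟨B, h0, h1, h2, h3⟩ := ih
      exact ⟨([], [a]) :: B, by simp, by simp [h1], by simp [h2], by simp [h3]⟩

end Pool.Agent.Undec
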