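import Pool.Agent.Undec.Hist
import Pool.Agent.Undec.Model

/-! The deterministic one-counter machine of the reduction. -/

namespace Pool.Agent.Undec

variable {C : Type}

instance [Finite C] : Finite (Ltr C) := by
  have : Function.Surjective (fun x : C ⊕ Bool => match x with
    | .inl c => Ltr.cell c
    | .inr true => Ltr.hash
    | .inr false => Ltr.pct) := by
    intro y
    cases y with
    | cell c => exact ⟨.inl c, rfl⟩
    | hash => exact ⟨.inr true, rfl⟩
    | pct => exact ⟨.inr false, rfl⟩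
  exact Finite.of_surjective _ this

instance [Finite C] : Finite (DS C) := by
  have : Function.Surjective (fun x : (C × C) ⊕ (Ltr C ⊕ Ltr C) ⊕ Bool => match x with
    | .inl (a, b) => DS.P1 a b
    | .inr (.inl (.inl e)) => DS.P2 e
    | .inr (.inl (.inr e)) => DS.P3 e
    | .inr (.inr true) => DS.P0
    | .inr (.inr false) => DS.Ac) := by
    intro y
    cases y with
    | P0 => exact ⟨.inr (.inr true), rfl⟩
    | P1 a b => exact ⟨.inl (a, b), rfl⟩
    | P2 e => exact ⟨.inr (.inl (.inl e)), rfl⟩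
    | P3 e => exact ⟨.inr (.inl (.inr e)), rfl⟩
    | Ac => exact ⟨.inr (.inr false), rfl⟩
  exact Finite.of_surjective _ this

/-- choice letters -/
def cc : Bool → ℕ
  | false => 0
  | true => 1

/-- states of the machine: waiting for a letter, or for a choice -/
abbrev MS (C : Type) : Type := DS C ⊕ (DS C × Ltr C)

/-- the table of moves of the machine -/
def Tab (f : C → C → C → C) (b : C) (lc : Ltr C → ℕ) (sc : MS C → ℕ) :
    Set ((ℕ × Option ℕ × Bool) × (ℕ × Bool × ℤ)) :=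
  {t | ∃ s a z, t = ((sc (.inl s), some (lc a), z), (sc (.inr (s, a)), true, 0))} ∪
  {t | ∃ s a ch z s' d, stepD f b s z a ch = some (s', d) ∧
    t = ((sc (.inr (s, a)), some (cc ch), z), (sc (.inl s'), true, d))} ∪
  {t | ∃ z, t = ((sc (.inl .Ac), none, z), (sc (.inl .Ac), true, 0))}

lemma Tab_finite [Finite C] (f : C → C → C → C) (b : C) (lc : Ltr C → ℕ) (sc : MS C → ℕ) :
    (Tab f b lc sc).Finite := by
  refine Set.Finite.union (Set.Finite.union ?_ ?_) ?_
  · refine Set.Finite.subset (Set.finite_range (fun p : DS C × Ltr C × Bool =>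
      ((sc (.inl p.1), some (lc p.2.1), p.2.2), (sc (.inr (p.1, p.2.1)), true, (0 : ℤ))))) ?_
    rintro t ⟨s, a, z, rfl⟩
    exact ⟨(s, a, z), rfl⟩
  · refine Set.Finite.subset (Set.finite_range (fun p : DS C × Ltr C × Bool × Bool =>
      ((sc (.inr (p.1, p.2.1)), some (cc p.2.2.1), p.2.2.2),
        match stepD f b p.1 p.2.2.2 p.2.1 p.2.2.1 with
        | some (s', d) => (sc (.inl s'), true, d)
        | none => (0, true, (0 : ℤ))))) ?_
    rintro t ⟨s, a, ch, z, s', d, h, rfl⟩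
    exact ⟨(s, a, ch, z), by simp [h]⟩
  · refine Set.Finite.subset (Set.finite_range (fun z : Bool =>
      ((sc (.inl .Ac), (none : Option ℕ), z), (sc (.inl .Ac), true, (0 : ℤ))))) ?_
    rintro t ⟨z, rfl⟩
    exact ⟨z, rfl⟩

lemma stepD_d {f : C → C → C → C} {b : C} {s : DS C} {z : Bool} {a : Ltr C} {ch : Bool}
    {s' : DS C} {d : ℤ} (h : stepD f b s z a ch = some (s', d)) :
    (d = -1 ∨ d = 0 ∨ d = 1) ∧ (z = true → 0 ≤ d) := by
  cases s <;> cases z <;> cases a <;> cases ch <;> simp only [stepD, Option.some.injEq,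
    Prod.mk.injEq, reduceCtorEq, Option.ite_none_left_eq_some] at h <;>
    first
    | (obtain ⟨-, rfl⟩ := h; simp)
    | (obtain ⟨-, -, rfl⟩ := h; simp)

/-- late phases -/
def Down : DS C → Prop
  | .P0 => False
  | .P1 _ _ => False
  | _ => True

lemma stepD_down {f : C → C → C → C} {b : C} {s : DS C} {z : Bool} {a : Ltr C} {ch : Bool}
    {s' : DS C} {d : ℤ} (h : stepD f b s z a ch = some (s', d)) :
    (Down s → Down s' ∧ d ≤ 0) ∧ (d < 0 → Down s') := by
  cases s <;> cases z <;> cases a <;> cases ch <;> simp only [stepD, Option.some.injEq,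
    Prod.mk.injEq, reduceCtorEq, Option.ite_none_left_eq_some] at h <;>
    first
    | (obtain ⟨rfl, rfl⟩ := h; simp [Down])
    | (obtain ⟨-, rfl, rfl⟩ := h; simp [Down])

/-- the word of a history, with the choice letters -/
def expand (lc : Ltr C → ℕ) (hs : List (Ltr C)) : List ℕ := hs.flatMap fun a => [lc a, 0, 1]

/-- accepting computations exist -/
def AccM (M : CM) (K : Cfg) : Prop := ∃ ds q c, M.Comp K ds (q, [], c) ∧ q ∈ M.2.1

lemma accM_cons (M : CM) (q : ℕ) (x : Option ℕ) (rest : List (Option ℕ)) (c : ℕ) :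
    AccM M (q, x :: rest, c) ↔ ∃ (q' : ℕ) (adv : Bool) (d : ℤ) (c' : ℕ),
      ((q, x, decide (c = 0)), (q', adv, d)) ∈ M.2.2 ∧ (c' : ℤ) = (c : ℤ) + d ∧
      AccM M (q', if adv then rest else x :: rest, c') := by
  constructor
  · rintro ⟨ds, q1, c1, h, hq⟩
    cases h with
    | cons hs hc =>
      cases hs with
      | mk hm hd => exact ⟨_, _, _, _, hm, hd, _, _, _, hc, hq⟩
  · rintro ⟨q', adv, d, c', hm, hd, ds, q1, c1, h, hq⟩
    exact ⟨_, _, _, .cons (.mk hm hd) h, hq⟩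

lemma accM_nil (M : CM) (q : ℕ) (c : ℕ) : AccM M (q, [], c) ↔ q ∈ M.2.1 := by
  constructor
  · rintro ⟨ds, q1, c1, h, hq⟩
    cases h with
    | nil => exact hq
    | cons hs _ => cases hs
  · intro h
    exact ⟨_, _, _, .nil _, h⟩

section machine

variable {f : C → C → C → C} {b : C} {lc : Ltr C → ℕ} {sc : MS C → ℕ}
  {T : List ((ℕ × Option ℕ × Bool) × (ℕ × Bool × ℤ))}

/-- the machine -/
def mach (T : List ((ℕ × Option ℕ × Bool) × (ℕ × Bool × ℤ))) (sc : MS C → ℕ) : CM :=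
  (sc (.inl .P0), [sc (.inl .Ac)], T)

lemma mem_T_inl (hT : ∀ t, t ∈ T ↔ t ∈ Tab f b lc sc) (hsc : Function.Injective sc)
    {s : DS C} {x : Option ℕ} {z : Bool} {v : ℕ × Bool × ℤ} :
    ((sc (.inl s), x, z), v) ∈ T ↔ (∃ a, x = some (lc a) ∧ v = (sc (.inr (s, a)), true, 0)) ∨
      (s = .Ac ∧ x = none ∧ v = (sc (.inl .Ac), true, 0)) := by
  rw [hT]
  constructor
  · rintro ((⟨s1, a, z1, h⟩ | ⟨s1, a, ch, z1, s', d, -, h⟩) | ⟨z1, h⟩)
    · simp only [Prod.mk.injEq] at h
      obtain ⟨⟨h1, h2, h3⟩, h4⟩ := h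
      have := hsc h1
      simp only [Sum.inl.injEq] at this
      subst this
      exact Or.inl ⟨a, h2, h4⟩
    · simp only [Prod.mk.injEq] at h
      have := hsc h.1.1
      simp at this
    · simp only [Prod.mk.injEq] at h
      obtain ⟨⟨h1, h2, h3⟩, h4⟩ := h
      have := hsc h1
      simp only [Sum.inl.injEq] at this
      exact Or.inr ⟨this, h2, h4⟩
  · rintro (⟨a, rfl, rfl⟩ | ⟨rfl, rfl, rfl⟩)
    · exact Or.inl (Or.inl ⟨s, a, z, rfl⟩)
    · exact Or.inr ⟨z, rfl⟩

lemma mem_T_inr (hT : ∀ t, t ∈ T ↔ t ∈ Tab f b lc sc) (hsc : Function.Injective sc)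
    {s : DS C} {a : Ltr C} {x : Option ℕ} {z : Bool} {v : ℕ × Bool × ℤ} :
    ((sc (.inr (s, a)), x, z), v) ∈ T ↔
      ∃ ch s' d, stepD f b s z a ch = some (s', d) ∧ x = some (cc ch) ∧
        v = (sc (.inl s'), true, d) := by
  rw [hT]
  constructor
  · rintro ((⟨s1, a, z1, h⟩ | ⟨s1, a, ch, z1, s', d, h0, h⟩) | ⟨z1, h⟩)
    · simp only [Prod.mk.injEq] at h
      have := hsc h.1.1
      simp at this
    · simp only [Prod.mk.injEq] at h
      obtain ⟨⟨h1, h2, h3⟩, h4⟩ := h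
      have := hsc h1
      simp only [Sum.inr.injEq, Prod.mk.injEq] at this
      obtain ⟨rfl, rfl⟩ := this
      subst h3
      exact ⟨ch, s', d, h0, h2, h4⟩
    · simp only [Prod.mk.injEq] at h
      have := hsc h.1.1
      simp at this
  · rintro ⟨ch, s', d, h0, rfl, rfl⟩
    exact Or.inl (Or.inr ⟨s, a, ch, z, s', d, h0, rfl⟩)

lemma mach_isDCA (hT : ∀ t, t ∈ T ↔ t ∈ Tab f b lc sc) (hsc : Function.Injective sc)
    (hlc : Function.Injective lc) : (mach T sc).IsDCA := by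
  constructor
  · rintro ⟨q, x, z⟩ v₁ v₂ h1 h2
    change _ ∈ T at h1
    change _ ∈ T at h2
    have hq : (∃ s, q = sc (.inl s)) ∨ ∃ s a, q = sc (.inr (s, a)) := by
      rw [hT] at h1
      rcases h1 with ((⟨s1, a, z1, h⟩ | ⟨s1, a, ch, z1, s', d, h0, h⟩) | ⟨z1, h⟩)
      · simp only [Prod.mk.injEq] at h
        exact Or.inl ⟨_, h.1.1⟩
      · simp only [Prod.mk.injEq] at h
        exact Or.inr ⟨_, _, h.1.1⟩
      · simp only [Prod.mk.injEq] at h
        exact Or.inl ⟨_, h.1.1⟩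
    rcases hq with ⟨s, rfl⟩ | ⟨s, a, rfl⟩
    · rw [mem_T_inl hT hsc] at h1 h2
      rcases h1 with ⟨a, rfl, rfl⟩ | ⟨rfl, rfl, rfl⟩
      · rcases h2 with ⟨a', h3, rfl⟩ | ⟨_, h3, _⟩
        · simp only [Option.some.injEq] at h3
          rw [hlc h3]
        · simp at h3
      · rcases h2 with ⟨a', h3, rfl⟩ | ⟨_, h3, rfl⟩
        · simp at h3
        · rfl
    · rw [mem_T_inr hT hsc] at h1 h2
      obtain ⟨ch, s', d, h3, rfl, rfl⟩ := h1
      obtain ⟨ch', s'', d', h5, h6, rfl⟩ := h2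
      simp only [Option.some.injEq] at h6
      have hch : ch = ch' := by
        cases ch <;> cases ch' <;> simp_all [cc]
      subst hch
      rw [h3] at h5
      simp only [Option.some.injEq, Prod.mk.injEq] at h5
      obtain ⟨rfl, rfl⟩ := h5
      rfl
  · intro q x z q' adv d h
    change _ ∈ T at h
    rw [hT] at h
    rcases h with ((⟨s1, a, z1, h⟩ | ⟨s1, a, ch, z1, s', d', h0, h⟩) | ⟨z1, h⟩)
    · simp only [Prod.mk.injEq] at h
      simp [h.2.2.2]
    · simp only [Prod.mk.injEq] at h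
      obtain ⟨⟨-, -, rfl⟩, -, -, rfl⟩ := h
      exact stepD_d h0
    · simp only [Prod.mk.injEq] at h
      simp [h.2.2.2]

/-- states of the late phases -/
def DownQ (sc : MS C → ℕ) (q : ℕ) : Prop :=
  ∃ s, Down s ∧ (q = sc (.inl s) ∨ ∃ a, q = sc (.inr (s, a)))

lemma step_down (hT : ∀ t, t ∈ T ↔ t ∈ Tab f b lc sc) (hsc : Function.Injective sc)
    {K K' : Cfg} {d : ℤ} (h : (mach T sc).Step K d K') :
    (DownQ sc K.1 → DownQ sc K'.1 ∧ d ≤ 0) ∧ (d < 0 → DownQ sc K'.1) := by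
  cases h with
  | @mk q x rest c q' adv d c' hm hd =>
    change _ ∈ T at hm
    rw [hT] at hm
    rcases hm with ((⟨s1, a, z1, h⟩ | ⟨s1, a, ch, z1, s', d', h0, h⟩) | ⟨z1, h⟩)
    · simp only [Prod.mk.injEq] at h
      obtain ⟨⟨rfl, -, -⟩, rfl, -, rfl⟩ := h
      refine ⟨?_, fun h => absurd h (lt_irrefl _)⟩
      rintro ⟨s, hs, h | ⟨a', h⟩⟩
      · have := hsc h
        simp only [Sum.inl.injEq] at this
        subst this
        exact ⟨⟨s1, hs, Or.inr ⟨a, rfl⟩⟩, le_refl _⟩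
      · have := hsc h
        simp at this
    · simp only [Prod.mk.injEq] at h
      obtain ⟨⟨rfl, -, -⟩, rfl, -, rfl⟩ := h
      have hdn := stepD_down h0
      refine ⟨?_, fun h => ⟨s', hdn.2 h, Or.inl rfl⟩⟩
      rintro ⟨s, hs, h | ⟨a', h⟩⟩
      · have := hsc h
        simp at this
      · have := hsc h
        simp only [Sum.inr.injEq, Prod.mk.injEq] at this
        obtain ⟨rfl, rfl⟩ := this
        exact ⟨⟨s', (hdn.1 hs).1, Or.inl rfl⟩, (hdn.1 hs).2⟩
    · simp only [Prod.mk.injEq] at h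
      obtain ⟨⟨rfl, -, -⟩, rfl, -, rfl⟩ := h
      exact ⟨fun _ => ⟨⟨.Ac, trivial, Or.inl rfl⟩, le_refl _⟩, fun h => absurd h (lt_irrefl _)⟩

lemma comp_down (hT : ∀ t, t ∈ T ↔ t ∈ Tab f b lc sc) (hsc : Function.Injective sc)
    {K K' : Cfg} {ds : List ℤ} (h : (mach T sc).Comp K ds K') :
    DownQ sc K.1 → ∀ d ∈ ds, d ≤ 0 := by
  induction h with
  | nil => intro _ d hd; simp at hd
  | cons hs _ ih =>
    intro hK d hd
    have h1 := (step_down hT hsc hs).1 hK
    rcases List.mem_cons.1 hd with rfl | hd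
    · exact h1.2
    · exact ih h1.1 d hd

lemma mach_oneReversal (hT : ∀ t, t ∈ T ↔ t ∈ Tab f b lc sc) (hsc : Function.Injective sc) :
    (mach T sc).OneReversal := by
  intro w ds K h
  generalize (mach T sc).init w = K₀ at h
  induction h with
  | nil => exact List.Pairwise.nil
  | cons hs hc ih =>
    refine List.Pairwise.cons ?_ ih
    rintro d' hd' ⟨h1, h2⟩
    have := comp_down hT hsc hc ((step_down hT hsc hs).2 h1) d' hd'
    omega

end machine

end Pool.Agent.Undec
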