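import Pool.Agent.Undec.Mach

/-! The shuffle with the words over the two choice letters guesses the choices. -/

namespace Pool.Agent.Undec

variable {C : Type} {f : C → C → C → C} {b : C} {lc : Ltr C → ℕ} {sc : MS C → ℕ}
  {T : List ((ℕ × Option ℕ × Bool) × (ℕ × Bool × ℤ))}

lemma expand_nil : expand lc [] = [] := rfl

lemma expand_cons (a : Ltr C) (hs : List (Ltr C)) :
    expand lc (a :: hs) = lc a :: 0 :: 1 :: expand lc hs := rfl

lemma accM_inl (hT : ∀ t, t ∈ T ↔ t ∈ Tab f b lc sc) (hsc : Function.Injective sc)
    (hlc : Function.Injective lc) (s : DS C) (a : Ltr C) (rest : List (Option ℕ)) (c : ℕ) :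
    AccM (mach T sc) (sc (.inl s), some (lc a) :: rest, c) ↔
      AccM (mach T sc) (sc (.inr (s, a)), rest, c) := by
  rw [accM_cons]
  constructor
  · rintro ⟨q', adv, d, c', hm, hd, hA⟩
    change _ ∈ T at hm
    rw [mem_T_inl hT hsc] at hm
    rcases hm with ⟨a', h1, h2⟩ | ⟨-, h1, -⟩
    · simp only [Option.some.injEq] at h1
      have := hlc h1
      subst this
      simp only [Prod.mk.injEq] at h2
      obtain ⟨rfl, rfl, rfl⟩ := h2
      have : c' = c := by omega
      subst this
      exact hA
    · simp at h1
  · intro h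
    exact ⟨sc (.inr (s, a)), true, 0, c, (mem_T_inl hT hsc).2 (Or.inl ⟨a, rfl, rfl⟩), by simp, h⟩

lemma accM_inr (hT : ∀ t, t ∈ T ↔ t ∈ Tab f b lc sc) (hsc : Function.Injective sc)
    (s : DS C) (a : Ltr C) (x : Option ℕ) (rest : List (Option ℕ)) (c : ℕ) :
    AccM (mach T sc) (sc (.inr (s, a)), x :: rest, c) ↔
      ∃ (ch : Bool) (s' : DS C) (d : ℤ) (c' : ℕ), x = some (cc ch) ∧
        stepD f b s (decide (c = 0)) a ch = some (s', d) ∧ (c' : ℤ) = (c : ℤ) + d ∧
        AccM (mach T sc) (sc (.inl s'), rest, c') := by
  rw [accM_cons]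
  constructor
  · rintro ⟨q', adv, d, c', hm, hd, hA⟩
    change _ ∈ T at hm
    rw [mem_T_inr hT hsc] at hm
    obtain ⟨ch, s', d', h1, h2, h3⟩ := hm
    simp only [Prod.mk.injEq] at h3
    obtain ⟨rfl, rfl, rfl⟩ := h3
    exact ⟨ch, s', d, c', h2, h1, hd, hA⟩
  · rintro ⟨ch, s', d, c', h2, h1, hd, hA⟩
    exact ⟨sc (.inl s'), true, d, c', (mem_T_inr hT hsc).2 ⟨ch, s', d, h1, h2, rfl⟩, hd, hA⟩

lemma accM_end (hT : ∀ t, t ∈ T ↔ t ∈ Tab f b lc sc) (hsc : Function.Injective sc)
    (s : DS C) (c : ℕ) : AccM (mach T sc) (sc (.inl s), [none], c) ↔ s = .Ac := by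
  rw [accM_cons]
  constructor
  · rintro ⟨q', adv, d, c', hm, hd, hA⟩
    change _ ∈ T at hm
    rw [mem_T_inl hT hsc] at hm
    rcases hm with ⟨a', h1, h2⟩ | ⟨h0, -, -⟩
    · simp at h1
    · exact h0
  · rintro rfl
    refine ⟨sc (.inl .Ac), true, 0, c, (mem_T_inl hT hsc).2 (Or.inr ⟨rfl, rfl, rfl⟩), by simp, ?_⟩
    simp only [if_true]
    rw [accM_nil]
    simp [mach]

theorem sound (hT : ∀ t, t ∈ T ↔ t ∈ Tab f b lc sc) (hsc : Function.Injective sc)
    (hlc : Function.Injective lc) (hl2 : ∀ a, 2 ≤ lc a) :
    ∀ (hs : List (Ltr C)) (s : DS C) (c : ℕ) (u v : List ℕ), Sh u v (expand lc hs) →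
      (∀ x ∈ u, x = 0 ∨ x = 1) →
      AccM (mach T sc) (sc (.inl s), v.map some ++ [none], c) → A f b s c hs := by
  intro hs
  induction hs with
  | nil =>
    intro s c u v h _ hA
    rw [expand_nil] at h
    cases h
    simp only [List.map_nil, List.nil_append] at hA
    rw [accM_end hT hsc] at hA
    rw [A_nil]
    exact hA
  | cons a hs ih =>
    intro s c u v h hu hA
    rw [expand_cons] at h
    cases h with
    | left _ h =>
      have h1 := hu (lc a) (by simp)
      have h2 := hl2 a
      omega
    | right _ h =>
      simp only [List.map_cons, List.cons_append] at hA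
      rw [accM_inl hT hsc hlc] at hA
      cases h with
      | left _ h =>
        cases h with
        | left _ h =>
          exfalso
          cases h' : expand lc hs with
          | nil =>
            rw [h'] at h
            cases h
            simp only [List.map_nil, List.nil_append] at hA
            rw [accM_inr hT hsc] at hA
            obtain ⟨ch, s', d, c', h1, -⟩ := hA
            simp at h1
          | cons y w =>
            cases hs with
            | nil => simp [expand_nil] at h'
            | cons a' hs =>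
              rw [expand_cons] at h
              cases h with
              | left _ h =>
                have h1 := hu (lc a') (by simp)
                have h2 := hl2 a'
                omega
              | right _ h =>
                simp only [List.map_cons, List.cons_append] at hA
                rw [accM_inr hT hsc] at hA
                obtain ⟨ch, s', d, c', h1, -⟩ := hA
                simp only [Option.some.injEq] at h1
                have h2 := hl2 a'
                cases ch <;> simp only [cc] at h1 <;> omega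
        | right _ h =>
          simp only [List.map_cons, List.cons_append] at hA
          rw [accM_inr hT hsc] at hA
          obtain ⟨ch, s', d, c', h1, h2, h3, h4⟩ := hA
          rw [A_cons]
          refine ⟨ch, s', d, c', h2, h3, ih s' c' _ _ h (fun x hx => hu x (by simp [hx])) h4⟩
      | right _ h =>
        simp only [List.map_cons, List.cons_append] at hA
        rw [accM_inr hT hsc] at hA
        obtain ⟨ch, s', d, c', h1, h2, h3, h4⟩ := hA
        cases h with
        | left _ h =>
          rw [A_cons]
          refine ⟨ch, s', d, c', h2, h3, ih s' c' _ _ h (fun x hx => hu x (by simp [hx])) h4⟩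
        | right _ h =>
          exfalso
          simp only [List.map_cons, List.cons_append] at h4
          rw [accM_cons] at h4
          obtain ⟨q', adv, d', c'', hm, hd, -⟩ := h4
          change _ ∈ T at hm
          rw [mem_T_inl hT hsc] at hm
          rcases hm with ⟨a', h5, -⟩ | ⟨-, h5, -⟩
          · simp only [Option.some.injEq] at h5
            have := hl2 a'
            omega
          · simp at h5

theorem complete (hT : ∀ t, t ∈ T ↔ t ∈ Tab f b lc sc) (hsc : Function.Injective sc)
    (hlc : Function.Injective lc) :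
    ∀ (hs : List (Ltr C)) (s : DS C) (c : ℕ), A f b s c hs →
      ∃ u v, Sh u v (expand lc hs) ∧ (∀ x ∈ u, x = 0 ∨ x = 1) ∧
      AccM (mach T sc) (sc (.inl s), v.map some ++ [none], c) := by
  intro hs
  induction hs with
  | nil =>
    intro s c h
    rw [A_nil] at h
    subst h
    refine ⟨[], [], Sh.nil, by simp, ?_⟩
    simp only [List.map_nil, List.nil_append]
    rw [accM_end hT hsc]
  | cons a hs ih =>
    intro s c h
    rw [A_cons] at h
    obtain ⟨ch, s', d, c', h1, h2, h3⟩ := h
    obtain ⟨u, v, hS, hu, hA⟩ := ih s' c' h3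
    cases ch with
    | true =>
      refine ⟨0 :: u, lc a :: 1 :: v, ?_, ?_, ?_⟩
      · rw [expand_cons]
        exact Sh.right _ (Sh.left _ (Sh.right _ hS))
      · intro x hx
        rcases List.mem_cons.1 hx with rfl | hx
        · exact Or.inl rfl
        · exact hu x hx
      · simp only [List.map_cons, List.cons_append]
        rw [accM_inl hT hsc hlc, accM_inr hT hsc]
        exact ⟨true, s', d, c', rfl, h1, h2, hA⟩
    | false =>
      refine ⟨1 :: u, lc a :: 0 :: v, ?_, ?_, ?_⟩
      · rw [expand_cons]
        exact Sh.right _ (Sh.right _ (Sh.left _ hS))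
      · intro x hx
        rcases List.mem_cons.1 hx with rfl | hx
        · exact Or.inr rfl
        · exact hu x hx
      · simp only [List.map_cons, List.cons_append]
        rw [accM_inl hT hsc hlc, accM_inr hT hsc]
        exact ⟨false, s', d, c', rfl, h1, h2, hA⟩

/-- the automaton of the words over the two choice letters -/
def A1 : FA := (0, [0], [(0, 0, 0), (0, 1, 0)])

lemma A1_det : A1.Det := by
  intro q a q₁ q₂ h1 h2
  simp [A1] at h1 h2
  omega

lemma A1_lang : A1.lang = {u | ∀ x ∈ u, x = 0 ∨ x = 1} := by
  ext u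
  constructor
  · rintro ⟨q, -, h⟩
    change FARun A1.2.2 A1.1 u q at h
    generalize A1.1 = q₀ at h
    change ∀ x ∈ u, x = 0 ∨ x = 1
    induction h with
    | nil => intro x hx; simp at hx
    | cons hm _ ih =>
      intro x hx
      simp only [A1, List.mem_cons, Prod.mk.injEq, List.not_mem_nil, or_false] at hm
      rcases List.mem_cons.1 hx with rfl | hx
      · rcases hm with h | h
        · exact Or.inl h.2.1
        · exact Or.inr h.2.1
      · exact ih x hx
  · intro h
    refine ⟨0, by simp [A1], ?_⟩
    change FARun [(0, 0, 0), (0, 1, 0)] 0 u 0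
    induction u with
    | nil => exact FARun.nil 0
    | cons x u ih =>
      have hx := h x (by simp)
      refine FARun.cons ?_ (ih (fun y hy => h y (by simp [hy])))
      rcases hx with rfl | rfl <;> simp

/-- which coded histories are in the shuffle -/
theorem shuffle_iff (hT : ∀ t, t ∈ T ↔ t ∈ Tab f b lc sc) (hsc : Function.Injective sc)
    (hlc : Function.Injective lc) (hl2 : ∀ a, 2 ≤ lc a) (hs : List (Ltr C)) :
    expand lc hs ∈ shuffle A1.lang (mach T sc).lang ↔ A f b .P0 0 hs := by
  constructor
  · rintro ⟨u, hu, v, ⟨ds, q, c, hv, hq⟩, hS⟩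
    rw [A1_lang] at hu
    exact sound hT hsc hlc hl2 hs .P0 0 u v (isShuffle_iff.1 hS) hu ⟨ds, q, c, hv, hq⟩
  · intro h
    obtain ⟨u, v, hS, hu, ds, q, c, hv, hq⟩ := complete hT hsc hlc hs .P0 0 h
    exact ⟨u, by rw [A1_lang]; exact hu, v, ⟨ds, q, c, hv, hq⟩, isShuffle_iff.2 hS⟩

end Pool.Agent.Undec
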